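import Pool.Agent.V1161.VC.Real

/-!
# Polynomial recurrence with the optimal constant for functions that are not bounded by 1

For every `d` and `ε > 0` there are `N` and `c > 0` such that for every bounded measurable `F ≥ 0` vanishing outside
an interval of length `H` and all real `β_1, …, β_d` of absolute value at most `c H` there is `1 ≤ n ≤ N` with
`∫ F(t) F(t + β_1 n + … + β_d n^d) dt ≥ (1 - ε) (∫ F)² / H - ε ∫ F²`.
-/

set_option autoImplicit false

namespace Pool.Agent.V1161.VC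

open Filter Topology Finset MeasureTheory

/-- correlations of a nonnegative function on a box -/
theorem box_corr2 {d : ℕ} {ι : Type*} (s : Finset ι) (ν : ι → ℝ) (γ : ι → Fin d → ℕ) {ε : ℝ}
    (hν : ∀ x ∈ s, 0 ≤ ν x)
    (h : ∀ α : Fin d → ℝ, -ε ≤ ∑ x ∈ s, ν x * Real.cos (2 * Real.pi * ∑ r, α r * (γ x r : ℝ)))
    (V : ℕ) (f : (Fin d → ℕ) → ℝ) (hf : ∀ v, 0 ≤ f v) (μ : ℝ) :
    (∑ x ∈ s, ν x * ∑ v ∈ (box d V).filter (fun v => v + γ x ∈ box d V),
      (μ * f v + μ * f (v + γ x) - μ ^ 2)) - ε * ∑ v ∈ box d V, (f v - μ) ^ 2 ≤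
      ∑ x ∈ s, ν x * ∑ v ∈ box d V, f v * f (v + γ x) := by
  classical
  set y : (Fin d → ℕ) → ℝ := fun v => if v ∈ box d V then f v - μ else 0 with hy
  have hyin : ∀ v ∈ box d V, y v = f v - μ := fun v hv => by simp only [hy]; rw [if_pos hv]
  have hyout : ∀ v, v ∉ box d V → y v = 0 := fun v hv => by simp only [hy]; rw [if_neg hv]
  have hpd := posdef s ν γ h V y hyout
  have hone : ∀ x ∈ s, (∑ v ∈ (box d V).filter (fun v => v + γ x ∈ box d V),
      (μ * f v + μ * f (v + γ x) - μ ^ 2)) + ∑ v ∈ box d V, y v * y (v + γ x) ≤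
      ∑ v ∈ box d V, f v * f (v + γ x) := by
    intro x hx
    set A := (box d V).filter (fun v => v + γ x ∈ box d V) with hA
    have h1 : ∑ v ∈ A, f v * f (v + γ x) ≤ ∑ v ∈ box d V, f v * f (v + γ x) :=
      Finset.sum_le_sum_of_subset_of_nonneg (Finset.filter_subset _ _)
        fun v _ _ => mul_nonneg (hf v) (hf _)
    refine le_trans (le_of_eq ?_) h1
    have h3 : ∑ v ∈ box d V, y v * y (v + γ x) = ∑ v ∈ A, y v * y (v + γ x) := by
      symm
      apply Finset.sum_subset (Finset.filter_subset _ _)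
      intro v hv hvA
      have : v + γ x ∉ box d V := fun h4 => hvA (Finset.mem_filter.2 ⟨hv, h4⟩)
      rw [hyout _ this, mul_zero]
    rw [h3, ← Finset.sum_add_distrib]
    apply Finset.sum_congr rfl
    intro v hv
    rw [hA, Finset.mem_filter] at hv
    rw [hyin v hv.1, hyin _ hv.2]
    ring
  have h22 : ∑ x ∈ s, ν x * ((∑ v ∈ (box d V).filter (fun v => v + γ x ∈ box d V),
      (μ * f v + μ * f (v + γ x) - μ ^ 2)) + ∑ v ∈ box d V, y v * y (v + γ x)) ≤
      ∑ x ∈ s, ν x * ∑ v ∈ box d V, f v * f (v + γ x) :=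
    Finset.sum_le_sum fun x hx => mul_le_mul_of_nonneg_left (hone x hx) (hν x hx)
  refine le_trans ?_ h22
  simp_rw [mul_add]
  rw [Finset.sum_add_distrib]
  have h23 : ∑ v ∈ box d V, y v ^ 2 = ∑ v ∈ box d V, (f v - μ) ^ 2 :=
    Finset.sum_congr rfl fun v hv => by rw [hyin v hv]
  rw [h23] at hpd
  linarith

/-- a finite measure on the positive integers, all degrees up to `d` -/
theorem meas_exists (d : ℕ) {ε : ℝ} (hε : 0 < ε) : ∃ (s : Finset (Σ _ : ℕ, ℕ)) (val : (Σ _ : ℕ, ℕ) → ℕ)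
    (ν : (Σ _ : ℕ, ℕ) → ℝ), (∀ x, 1 ≤ val x) ∧ (∀ x, 0 < ν x) ∧ ∑ x ∈ s, ν x = 1 ∧
    ∀ α : Fin d → ℝ, -ε ≤ ∑ x ∈ s, ν x *
      Real.cos (2 * Real.pi * ∑ r, α r * ((val x ^ ((r : ℕ) + 1) : ℕ) : ℝ)) := by
  classical
  obtain ⟨J, Nf, Wf, hJ, hN1, hW1, hpv⟩ := pv d hε
  have hJ' : (0 : ℝ) < J := by exact_mod_cast hJ
  set s : Finset (Σ _ : ℕ, ℕ) := (range J).sigma (fun j => range (Nf j)) with hs
  set val : (Σ _ : ℕ, ℕ) → ℕ := fun x => Wf x.1 * (x.2 + 1) with hval
  set ν : (Σ _ : ℕ, ℕ) → ℝ := fun x => 1 / (J * Nf x.1) with hν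
  have hNp : ∀ j, (0 : ℝ) < Nf j := fun j => by exact_mod_cast hN1 j
  refine ⟨s, val, ν, fun x => Nat.mul_pos (hW1 _) (Nat.succ_pos _), fun x => ?_, ?_, fun α => ?_⟩
  · have := hNp x.1
    simp only [hν]; positivity
  · rw [hs, Finset.sum_sigma]
    simp only [hν]
    have : ∀ j ∈ range J, ∑ _l ∈ range (Nf j), (1 / (J * Nf j) : ℝ) = 1 / J := by
      intro j _
      rw [Finset.sum_const, card_range, nsmul_eq_mul]
      have := hNp j
      field_simp
    rw [Finset.sum_congr rfl this, Finset.sum_const, card_range, nsmul_eq_mul]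
    field_simp
  · have h1 := hpv (fun r => if h : r < d then α ⟨r, h⟩ else 0)
    have h2 : ∀ j l : ℕ, ∑ r ∈ range d, (if h : r < d then α ⟨r, h⟩ else 0) *
        ((Wf j : ℝ) * ((l : ℝ) + 1)) ^ (r + 1) =
          ∑ r : Fin d, α r * ((val ⟨j, l⟩ ^ ((r : ℕ) + 1) : ℕ) : ℝ) := by
      intro j l
      rw [Finset.sum_range]
      apply Finset.sum_congr rfl
      intro r _
      rw [dif_pos r.2]
      simp only [hval]
      push_cast
      rfl
    simp only [h2] at h1
    rw [hs, Finset.sum_sigma]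
    have h3 : ∑ j ∈ range J, ∑ l ∈ range (Nf j), ν ⟨j, l⟩ *
        Real.cos (2 * Real.pi * ∑ r, α r * ((val ⟨j, l⟩ ^ ((r : ℕ) + 1) : ℕ) : ℝ)) =
        (∑ j ∈ range J, (1 / (Nf j : ℝ)) * ∑ l ∈ range (Nf j),
          Real.cos (2 * Real.pi * ∑ r, α r * ((val ⟨j, l⟩ ^ ((r : ℕ) + 1) : ℕ) : ℝ))) / J := by
      rw [Finset.sum_div]
      apply Finset.sum_congr rfl
      intro j _
      rw [mul_div_right_comm, Finset.mul_sum]
      apply Finset.sum_congr rfl
      intro l _
      simp only [hν]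
      congr 1
      have := hNp j
      field_simp
    rw [h3, le_div_iff₀ hJ']
    exact h1

/-- a bounded measurable function which vanishes outside an interval is integrable -/
lemma int_bdd {F : ℝ → ℝ} (hF : Measurable F) {B a b : ℝ} (hB : ∀ t, |F t| ≤ B)
    (hs : ∀ t, t ∉ Set.Icc a b → F t = 0) : Integrable F := by
  have h1 : IntegrableOn F (Set.Icc a b) := by
    apply Measure.integrableOn_of_bounded (M := B) measure_Icc_lt_top.ne hF.aestronglyMeasurable
    filter_upwards with t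
    exact hB t
  rw [integrableOn_iff_integrable_of_support_subset] at h1
  · exact h1
  · intro t ht
    by_contra h2
    exact ht (hs t h2)

/-- polynomial recurrence with the optimal constant, square integrable functions -/
theorem real_poly_L2 (d : ℕ) {ε : ℝ} (hε : 0 < ε) (hε1 : ε ≤ 1) : ∃ (N : ℕ) (c : ℝ), 1 ≤ N ∧ 0 < c ∧
    ∀ (a₀ H₀ : ℝ), 0 < H₀ → ∀ F : ℝ → ℝ, Measurable F → (∀ t, 0 ≤ F t) → (∃ B, ∀ t, F t ≤ B) →
      (∀ t, t ∉ Set.Icc a₀ (a₀ + H₀) → F t = 0) →
      ∀ β : Fin d → ℝ, (∀ r, |β r| ≤ c * H₀) → ∃ n : ℕ, 1 ≤ n ∧ n ≤ N ∧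
      (1 - ε) * ((∫ t, F t) ^ 2 / H₀) - ε * ∫ t, F t ^ 2 ≤
        ∫ t, F t * F (t + ∑ r, β r * (n : ℝ) ^ ((r : ℕ) + 1)) := by
  classical
  obtain ⟨s, val, ν, hval1, hνp, hν1, hcos⟩ := meas_exists d (ε := ε) hε
  set γ : (Σ _ : ℕ, ℕ) → Fin d → ℕ := fun x r => val x ^ ((r : ℕ) + 1) with hγ
  set N : ℕ := ∑ x ∈ s, val x with hNN
  have hvalN : ∀ x ∈ s, val x ≤ N := fun x hx =>
    single_le_sum (f := val) (fun _ _ => Nat.zero_le _) hx
  have hsne : s.Nonempty := by
    by_contra h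
    rw [Finset.not_nonempty_iff_eq_empty] at h
    rw [h, Finset.sum_empty] at hν1
    exact zero_ne_one hν1
  have hN : 1 ≤ N := by
    obtain ⟨x, hx⟩ := hsne
    exact (hval1 x).trans (hvalN x hx)
  obtain ⟨V, hV, hout⟩ := out_small d (η := ε / 2) (by positivity) (N ^ (d + 1))
  have hγN : ∀ x ∈ s, ∀ r, γ x r ≤ N ^ (d + 1) := by
    intro x hx r
    simp only [hγ]
    calc val x ^ ((r : ℕ) + 1) ≤ N ^ ((r : ℕ) + 1) := Nat.pow_le_pow_left (hvalN x hx) _
      _ ≤ N ^ (d + 1) := Nat.pow_le_pow_right hN (by omega)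
  have hV' : (0 : ℝ) < V := by exact_mod_cast hV
  have hVd : (0 : ℝ) < (V : ℝ) ^ d := by positivity
  set c : ℝ := ε / (4 * (d * V + 1)) with hc
  have hc0 : 0 < c := by positivity
  have hcV : d * V * c ≤ ε / 4 := by
    have h1 : (d * V + 1) * c = ε / 4 := by rw [hc]; field_simp
    nlinarith
  refine ⟨N, c, hN, hc0, fun a₀ H₀ hH₀ F hFm hF0 hFB hFs β hβ => ?_⟩
  obtain ⟨B, hB⟩ := hFB
  have hB0 : 0 ≤ B := (hF0 0).trans (hB 0)
  set b₀ : ℝ := ε / 4 * H₀ with hb₀
  have hb0 : 0 ≤ b₀ := by rw [hb₀]; positivity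
  set b : (Fin d → ℕ) → ℝ := fun v => b₀ + ∑ r, β r * (v r : ℝ) with hb
  have hbv : ∀ v ∈ box d V, 0 ≤ b v ∧ b v ≤ 2 * b₀ := by
    intro v hv
    rw [Fintype.mem_piFinset] at hv
    have h1 : |∑ r, β r * (v r : ℝ)| ≤ b₀ := by
      calc |∑ r, β r * (v r : ℝ)| ≤ ∑ r, |β r * (v r : ℝ)| := Finset.abs_sum_le_sum_abs _ _
        _ ≤ ∑ _r : Fin d, (c * H₀) * V := by
            apply Finset.sum_le_sum
            intro r _
            rw [abs_mul, Nat.abs_cast]
            apply mul_le_mul (hβ r) _ (Nat.cast_nonneg _) (by positivity)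
            exact_mod_cast (mem_range.1 (hv r)).le
        _ = (d * V * c) * H₀ := by
            rw [Finset.sum_const, card_univ, Fintype.card_fin, nsmul_eq_mul]; ring
        _ ≤ b₀ := by rw [hb₀]; exact mul_le_mul_of_nonneg_right hcV hH₀.le
    have h2 := abs_le.1 h1
    simp only [hb]
    constructor <;> linarith
  set a : ℝ := a₀ - 2 * b₀ with ha
  set H : ℝ := H₀ + 2 * b₀ with hH
  have hH0 : 0 < H := by positivity
  have hab : a ≤ a + H := by linarith
  set I₁ : ℝ := ∫ t, F t with hI₁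
  set I₂ : ℝ := ∫ t, F t ^ 2 with hI₂
  have hI₁0 : 0 ≤ I₁ := integral_nonneg fun t => hF0 t
  have hI₂0 : 0 ≤ I₂ := integral_nonneg fun t => sq_nonneg _
  set μ : ℝ := I₁ / H with hμ
  have hμH : μ * H = I₁ := by rw [hμ]; field_simp
  have hμ0 : 0 ≤ μ := div_nonneg hI₁0 hH0.le
  set S : (Σ _ : ℕ, ℕ) → ℝ := fun x => ∑ r, β r * (val x : ℝ) ^ ((r : ℕ) + 1) with hS
  have hbγ : ∀ v x, b (v + γ x) = b v + S x := by
    intro v x
    simp only [hb, hS, hγ, Pi.add_apply]
    push_cast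
    rw [add_assoc, ← Finset.sum_add_distrib]
    congr 1
    exact Finset.sum_congr rfl fun r _ => by ring
  -- integrability
  have hFi : Integrable F := int_bdd hFm (fun t => by rw [abs_of_nonneg (hF0 t)]; exact hB t) hFs
  have hF2i : Integrable fun t => F t ^ 2 := by
    apply int_bdd (hFm.pow_const 2) (B := B ^ 2) (a := a₀) (b := a₀ + H₀)
    · intro t
      rw [abs_of_nonneg (sq_nonneg _)]
      exact pow_le_pow_left₀ (hF0 t) (hB t) 2
    · intro t ht
      rw [hFs t ht]; ring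
  have hFFi : ∀ w, Integrable fun t => F t * F (t + w) := by
    intro w
    have hmw : Measurable fun t => F t * F (t + w) := hFm.mul (hFm.comp (measurable_add_const w))
    apply int_bdd hmw (B := B * B) (a := a₀) (b := a₀ + H₀)
    · intro t
      rw [abs_of_nonneg (mul_nonneg (hF0 _) (hF0 _))]
      exact mul_le_mul (hB _) (hB _) (hF0 _) hB0
    · intro t ht
      rw [hFs t ht, zero_mul]
  have hi1 : ∀ u, IntervalIntegrable (fun t => F (t + u)) volume a (a + H) := fun u =>
    (hFi.comp_add_right u).intervalIntegrable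
  have hi2 : ∀ u w, IntervalIntegrable (fun t => F (t + u) * F (t + u + w)) volume a (a + H) := fun u w =>
    ((hFFi w).comp_add_right u).intervalIntegrable
  have hi3 : ∀ u, IntervalIntegrable (fun t => F (t + u) ^ 2) volume a (a + H) := fun u =>
    (hF2i.comp_add_right u).intervalIntegrable
  have iisum : ∀ {κ : Type} (s' : Finset κ) (G : κ → ℝ → ℝ),
      (∀ i ∈ s', IntervalIntegrable (G i) volume a (a + H)) →
      IntervalIntegrable (fun t => ∑ i ∈ s', G i t) volume a (a + H) := by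
    intro κ s' G hG
    have h1 := IntervalIntegrable.sum s' hG
    have h2 : (∑ i ∈ s', G i) = fun t => ∑ i ∈ s', G i t := by funext t; simp
    rwa [h2] at h1
  -- the means
  have hmean : ∀ (G : ℝ → ℝ), Integrable G → (∀ t, t ∉ Set.Icc a₀ (a₀ + H₀) → G t = 0) →
      ∀ u, 0 ≤ u → u ≤ 2 * b₀ → ∫ t in a..(a + H), G (t + u) = ∫ t, G t := by
    intro G hG hGs u hu1 hu2
    rw [intervalIntegral.integral_comp_add_right (fun t => G t) u,
      intervalIntegral.integral_of_le (by linarith), ← integral_Icc_eq_integral_Ioc]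
    apply setIntegral_eq_integral_of_forall_compl_eq_zero
    intro t ht
    apply hGs
    intro h1
    apply ht
    constructor
    · linarith [h1.1]
    · linarith [h1.2]
  have hm1 : ∀ v ∈ box d V, ∫ t in a..(a + H), F (t + b v) = μ * H := fun v hv => by
    rw [hmean F hFi hFs (b v) (hbv v hv).1 (hbv v hv).2, hμH]
  have hm2 : ∀ v ∈ box d V, ∫ t in a..(a + H), F (t + b v) ^ 2 = I₂ := fun v hv =>
    hmean (fun t => F t ^ 2) hF2i (fun t ht => by rw [hFs t ht]; ring) (b v) (hbv v hv).1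
      (hbv v hv).2
  -- the pointwise inequality
  have hpt : ∀ t : ℝ, (∑ x ∈ s, ν x * ∑ v ∈ (box d V).filter (fun v => v + γ x ∈ box d V),
      (μ * F (t + b v) + μ * F (t + b (v + γ x)) - μ ^ 2)) - ε * ∑ v ∈ box d V, (F (t + b v) - μ) ^ 2 ≤
      ∑ x ∈ s, ν x * ∑ v ∈ box d V, F (t + b v) * F (t + b v + S x) := by
    intro t
    have h1 := box_corr2 s ν γ (ε := ε) (fun x _ => (hνp x).le) hcos V (fun v => F (t + b v))
      (fun v => hF0 _) μ
    have h2 : ∀ x v, F (t + b (v + γ x)) = F (t + b v + S x) := fun x v => by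
      rw [hbγ, ← add_assoc]
    refine h1.trans (le_of_eq ?_)
    apply Finset.sum_congr rfl
    intro x _
    congr 1
    apply Finset.sum_congr rfl
    intro v _
    rw [h2]
  set I : (Σ _ : ℕ, ℕ) → (Fin d → ℕ) → ℝ := fun x v =>
    ∫ t in a..(a + H), F (t + b v) * F (t + b v + S x) with hI
  have hcard : ((box d V).card : ℝ) = (V : ℝ) ^ d := by simp [box]
  -- integration
  have hint : ((1 - ε / 2) * (μ ^ 2 * H) - ε * I₂) * (V : ℝ) ^ d ≤ ∑ x ∈ s, ν x * ∑ v ∈ box d V, I x v := by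
    have hqi : ∀ v, IntervalIntegrable (fun t => (F (t + b v) - μ) ^ 2) volume a (a + H) := by
      intro v
      have h1 : (fun t => (F (t + b v) - μ) ^ 2) =
          fun t => F (t + b v) ^ 2 - 2 * μ * F (t + b v) + μ ^ 2 := by funext t; ring
      rw [h1]
      exact ((hi3 _).sub ((hi1 _).const_mul _)).add intervalIntegrable_const
    have hli : ∀ x v, IntervalIntegrable (fun t => μ * F (t + b v) + μ * F (t + b (v + γ x)) - μ ^ 2)
        volume a (a + H) := fun x v =>
      (((hi1 _).const_mul _).add ((hi1 _).const_mul _)).sub intervalIntegrable_const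
    have h1 : ∫ t in a..(a + H), ((∑ x ∈ s, ν x *
        ∑ v ∈ (box d V).filter (fun v => v + γ x ∈ box d V),
        (μ * F (t + b v) + μ * F (t + b (v + γ x)) - μ ^ 2)) - ε * ∑ v ∈ box d V, (F (t + b v) - μ) ^ 2) ≤
        ∫ t in a..(a + H), ∑ x ∈ s, ν x * ∑ v ∈ box d V, F (t + b v) * F (t + b v + S x) := by
      apply intervalIntegral.integral_mono_on hab _ _ fun t _ => hpt t
      · exact (iisum _ _ fun x _ => (iisum _ _ fun v _ => hli x v).const_mul _).sub
          ((iisum _ _ fun v _ => hqi v).const_mul _)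
      · exact iisum _ _ fun x _ => (iisum _ _ fun v _ => hi2 _ _).const_mul _
    have h2 : ∫ t in a..(a + H), ∑ x ∈ s, ν x * ∑ v ∈ box d V, F (t + b v) * F (t + b v + S x) =
        ∑ x ∈ s, ν x * ∑ v ∈ box d V, I x v := by
      rw [intervalIntegral.integral_finsetSum
        (fun x _ => (iisum _ _ fun v _ => hi2 _ _).const_mul _)]
      apply Finset.sum_congr rfl
      intro x _
      rw [intervalIntegral.integral_const_mul, intervalIntegral.integral_finsetSum
        (fun v _ => hi2 _ _)]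
    rw [h2] at h1
    refine le_trans ?_ h1
    rw [intervalIntegral.integral_sub (iisum _ _ fun x _ => (iisum _ _ fun v _ => hli x v).const_mul _)
      ((iisum _ _ fun v _ => hqi v).const_mul _), intervalIntegral.integral_finsetSum
      (fun x _ => (iisum _ _ fun v _ => hli x v).const_mul _), intervalIntegral.integral_const_mul,
      intervalIntegral.integral_finsetSum (fun v _ => hqi v)]
    have h3 : ∀ v ∈ box d V, ∫ t in a..(a + H), (F (t + b v) - μ) ^ 2 ≤ I₂ := by
      intro v hv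
      have h4 : (fun t => (F (t + b v) - μ) ^ 2) =
          fun t => F (t + b v) ^ 2 - 2 * μ * F (t + b v) + μ ^ 2 := by funext t; ring
      rw [h4, intervalIntegral.integral_add ((hi3 _).sub ((hi1 _).const_mul _)) intervalIntegrable_const,
        intervalIntegral.integral_sub (hi3 _) ((hi1 _).const_mul _), intervalIntegral.integral_const_mul,
        hm1 v hv, hm2 v hv, intervalIntegral.integral_const]
      simp only [smul_eq_mul]
      have h5 : 0 ≤ μ ^ 2 * H := by positivity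
      nlinarith
    have h6 : ε * ∑ v ∈ box d V, ∫ t in a..(a + H), (F (t + b v) - μ) ^ 2 ≤ ε * (I₂ * (V : ℝ) ^ d) := by
      apply mul_le_mul_of_nonneg_left _ hε.le
      calc ∑ v ∈ box d V, ∫ t in a..(a + H), (F (t + b v) - μ) ^ 2 ≤ ∑ _v ∈ box d V, I₂ :=
            Finset.sum_le_sum h3
        _ = _ := by rw [Finset.sum_const, nsmul_eq_mul, hcard]; ring
    have h7 : ∀ x ∈ s, ν x * ((1 - ε / 2) * (μ ^ 2 * H) * (V : ℝ) ^ d) ≤
        ∫ t in a..(a + H), ν x * ∑ v ∈ (box d V).filter (fun v => v + γ x ∈ box d V),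
          (μ * F (t + b v) + μ * F (t + b (v + γ x)) - μ ^ 2) := by
      intro x hx
      rw [intervalIntegral.integral_const_mul, intervalIntegral.integral_finsetSum (fun v _ => hli x v)]
      apply mul_le_mul_of_nonneg_left _ (hνp x).le
      have h8 : ∀ v ∈ (box d V).filter (fun v => v + γ x ∈ box d V),
          ∫ t in a..(a + H), (μ * F (t + b v) + μ * F (t + b (v + γ x)) - μ ^ 2) = μ ^ 2 * H := by
        intro v hv
        rw [Finset.mem_filter] at hv
        rw [intervalIntegral.integral_sub (((hi1 _).const_mul _).add ((hi1 _).const_mul _))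
          intervalIntegrable_const, intervalIntegral.integral_add ((hi1 _).const_mul _)
          ((hi1 _).const_mul _), intervalIntegral.integral_const_mul, intervalIntegral.integral_const_mul,
          hm1 v hv.1, hm1 _ hv.2, intervalIntegral.integral_const]
        simp only [smul_eq_mul]
        ring
      rw [Finset.sum_congr rfl h8, Finset.sum_const, nsmul_eq_mul]
      have h9 := hout (γ x) (hγN x hx)
      have h10 := Finset.card_filter_add_card_filter_not (s := box d V) (fun v => v + γ x ∈ box d V)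
      have h11 : (((box d V).filter (fun v => v + γ x ∈ box d V)).card : ℝ) +
          ((box d V).filter (fun v => v + γ x ∉ box d V)).card = (V : ℝ) ^ d := by
        rw [← hcard]; exact_mod_cast h10
      have h12 : (1 - ε / 2) * (V : ℝ) ^ d ≤
          (((box d V).filter (fun v => v + γ x ∈ box d V)).card : ℝ) := by linarith
      have h13 := mul_le_mul_of_nonneg_right h12 (by positivity : (0 : ℝ) ≤ μ ^ 2 * H)
      refine le_trans (le_of_eq ?_) h13
      ring
    have h14 := Finset.sum_le_sum h7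
    rw [← Finset.sum_mul, hν1, one_mul] at h14
    have h15 : ((1 - ε / 2) * (μ ^ 2 * H) - ε * I₂) * (V : ℝ) ^ d =
      (1 - ε / 2) * (μ ^ 2 * H) * (V : ℝ) ^ d - ε * (I₂ * (V : ℝ) ^ d) := by ring
    rw [h15]
    linarith
  -- the correlations over the whole line
  have hIle : ∀ x, ∀ v, I x v ≤ ∫ t, F t * F (t + S x) := by
    intro x v
    simp only [hI]
    rw [intervalIntegral.integral_comp_add_right (fun t => F t * F (t + S x)) (b v),
      intervalIntegral.integral_of_le (by linarith)]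
    exact setIntegral_le_integral (hFFi _) (Eventually.of_forall fun t => mul_nonneg (hF0 _) (hF0 _))
  -- the choice
  have hex : ∃ x ∈ s, (1 - ε / 2) * (μ ^ 2 * H) - ε * I₂ ≤ ∫ t, F t * F (t + S x) := by
    by_contra hcon
    push Not at hcon
    have h1 : ∀ x ∈ s, ∑ v ∈ box d V, I x v ≤ (V : ℝ) ^ d * ∫ t, F t * F (t + S x) := by
      intro x _
      calc ∑ v ∈ box d V, I x v ≤ ∑ _v ∈ box d V, ∫ t, F t * F (t + S x) :=
            Finset.sum_le_sum fun v _ => hIle x v
        _ = _ := by rw [Finset.sum_const, nsmul_eq_mul, hcard]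
    have h2 : ∑ x ∈ s, ν x * ∑ v ∈ box d V, I x v <
        ∑ x ∈ s, ν x * (((1 - ε / 2) * (μ ^ 2 * H) - ε * I₂) * (V : ℝ) ^ d) := by
      apply Finset.sum_lt_sum_of_nonempty hsne
      intro x hx
      apply mul_lt_mul_of_pos_left _ (hνp x)
      refine lt_of_le_of_lt (h1 x hx) ?_
      rw [mul_comm]
      exact mul_lt_mul_of_pos_right (hcon x hx) hVd
    rw [← Finset.sum_mul, hν1, one_mul] at h2
    linarith
  obtain ⟨x, hx, hfin⟩ := hex
  refine ⟨val x, hval1 x, hvalN x hx, ?_⟩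
  refine le_trans ?_ hfin
  have h1 : (1 - ε) * (I₁ ^ 2 / H₀) ≤ (1 - ε / 2) * (μ ^ 2 * H) := by
    have h2 : μ ^ 2 * H = I₁ ^ 2 / H := by rw [hμ]; field_simp
    rw [h2, hH, hb₀]
    have h3 : H₀ + 2 * (ε / 4 * H₀) = (1 + ε / 2) * H₀ := by ring
    rw [h3]
    have h4 : I₁ ^ 2 / ((1 + ε / 2) * H₀) = (1 / (1 + ε / 2)) * (I₁ ^ 2 / H₀) := by
      field_simp
    rw [h4, ← mul_assoc]
    apply mul_le_mul_of_nonneg_right _ (by positivity)
    rw [mul_one_div, le_div_iff₀ (by positivity)]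
    nlinarith
  linarith

end Pool.Agent.V1161.VC
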