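import Pool.Agent.V1161.VC.Real

/-!
# Polynomial recurrence with the optimal constant for subsets of intervals
-/

set_option autoImplicit false

namespace Pool.Agent.V1161.VC

open Filter Topology MeasureTheory

/-- polynomial recurrence with the optimal constant for sets -/
theorem real_poly_set (d : ℕ) {ε : ℝ} (hε : 0 < ε) : ∃ (N : ℕ) (c : ℝ), 1 ≤ N ∧ 0 < c ∧
    ∀ (a H : ℝ), 0 < H → ∀ (A : Set ℝ), MeasurableSet A → A ⊆ Set.Icc a (a + H) →
      ∀ δ : ℝ, 0 ≤ δ → ENNReal.ofReal (δ * H) ≤ volume A →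
      ∀ β : Fin d → ℝ, (∀ r, |β r| ≤ c * H) → ∃ n : ℕ, 1 ≤ n ∧ n ≤ N ∧
      ENNReal.ofReal ((δ ^ 2 - ε) * H) ≤
        volume {x : ℝ | x ∈ A ∧ x + ∑ r, β r * (n : ℝ) ^ ((r : ℕ) + 1) ∈ A} := by
  classical
  obtain ⟨N, c, hN, hc, h⟩ := real_poly d hε
  refine ⟨N, c, hN, hc, fun a H hH A hA hAs δ hδ hv β hβ => ?_⟩
  set f : ℝ → ℝ := A.indicator (fun _ => (1 : ℝ)) with hf
  have hfm : Measurable f := measurable_const.indicator hA
  have hfb : ∀ t, 0 ≤ f t ∧ f t ≤ 1 := fun t =>
    ⟨Set.indicator_nonneg (fun _ _ => zero_le_one) _, Set.indicator_le_self' (fun _ _ => zero_le_one) _⟩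
  obtain ⟨n, hn1, hn2, h1⟩ := h a H hH f hfm hfb β hβ
  refine ⟨n, hn1, hn2, ?_⟩
  set s : ℝ := ∑ r, β r * (n : ℝ) ^ ((r : ℕ) + 1) with hs
  have hfin : volume A ≠ ⊤ := ((measure_mono hAs).trans_lt measure_Icc_lt_top).ne
  -- the mean
  have h2 : ∫ t in a..(a + H), f t = (volume A).toReal := by
    rw [intervalIntegral.integral_of_le (by linarith), ← integral_Icc_eq_integral_Ioc, hf,
      setIntegral_indicator hA]
    have : Set.Icc a (a + H) ∩ A = A := Set.inter_eq_right.2 hAs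
    rw [this]
    simp [Measure.real]
  have h3 : δ * H ≤ (volume A).toReal := by
    rw [← ENNReal.ofReal_le_iff_le_toReal hfin]
    exact hv
  have h4 : δ ^ 2 ≤ ((∫ t in a..(a + H), f t) / H) ^ 2 := by
    apply pow_le_pow_left₀ hδ
    rw [h2, le_div_iff₀ hH]
    exact h3
  -- the correlation
  set B : Set ℝ := {x : ℝ | x ∈ A ∧ x + s ∈ A} with hB
  have hBm : MeasurableSet B := hA.inter (measurable_add_const s hA)
  have hBfin : volume B ≠ ⊤ :=
    ((measure_mono (fun x hx => hAs hx.1 : B ⊆ Set.Icc a (a + H))).trans_lt measure_Icc_lt_top).ne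
  have h5 : ∀ t, f t * f (t + s) = B.indicator (fun _ => (1 : ℝ)) t := by
    intro t
    by_cases h6 : t ∈ A
    · by_cases h7 : t + s ∈ A
      · have : t ∈ B := ⟨h6, h7⟩
        rw [hf, Set.indicator_of_mem h6, Set.indicator_of_mem h7, Set.indicator_of_mem this, one_mul]
      · have : t ∉ B := fun h8 => h7 h8.2
        rw [hf, Set.indicator_of_notMem h7, Set.indicator_of_notMem this, mul_zero]
    · have : t ∉ B := fun h8 => h6 h8.1
      rw [hf, Set.indicator_of_notMem h6, Set.indicator_of_notMem this, zero_mul]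
  have h6 : ∫ t in a..(a + H), f t * f (t + s) = (volume B).toReal := by
    simp_rw [h5]
    rw [intervalIntegral.integral_of_le (by linarith), ← integral_Icc_eq_integral_Ioc,
      setIntegral_indicator hBm]
    have : Set.Icc a (a + H) ∩ B = B := Set.inter_eq_right.2 fun x hx => hAs hx.1
    rw [this]
    simp [Measure.real]
  rw [h6] at h1
  rw [ENNReal.ofReal_le_iff_le_toReal hBfin]
  refine le_trans ?_ h1
  apply mul_le_mul_of_nonneg_right _ hH.le
  linarith

end Pool.Agent.V1161.VC
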