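import Pool.Agent.H238R3.UL.Poly

/-!
# A finite measure on the values of all polynomials without constant term with almost nonnegative Fourier transform

For every `d` and `ε > 0` there is a finitely supported probability measure on the positive integers `n` such that
the integrals of `cos (2π (α_1 n + … + α_d n^d))` are at least `-ε`, for all real `α_1, …, α_d`.
-/

set_option autoImplicit false

namespace Pool.Agent.V1161.VC

open Filter Topology Finset Complex Polynomial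
open Pool.Agent.H332R2.Lit (e e_add)

lemma norm_e1 (t : ℝ) : ‖e t‖ = 1 := by
  unfold e
  rw [show (2 * (Real.pi : ℂ) * t * Complex.I) = ((2 * Real.pi * t : ℝ) : ℂ) * Complex.I by push_cast; ring]
  exact Complex.norm_exp_ofReal_mul_I _

lemma re_e (t : ℝ) : (e t).re = Real.cos (2 * Real.pi * t) := by
  unfold e
  rw [show (2 * (Real.pi : ℂ) * t * Complex.I) = ((2 * Real.pi * t : ℝ) : ℂ) * Complex.I by push_cast; ring]
  exact Complex.exp_ofReal_mul_I_re _

lemma e_zero : e 0 = 1 := by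
  unfold e; simp

lemma e_int (n : ℤ) : e n = 1 := by
  unfold e
  rw [Complex.exp_eq_one_iff]
  exact ⟨n, by push_cast; ring⟩

lemma e_near {t τ : ℝ} (h : |t - round t| ≤ τ) : ‖e t - 1‖ ≤ 2 * Real.pi * τ := by
  have h1 : e t = e (t - round t) := by
    have h2 : t = (t - round t) + (round t : ℤ) := by ring
    conv_lhs => rw [h2]
    rw [e_add, e_int, mul_one]
  rw [h1]
  set s := t - round t
  have h3 : ‖e s - 1‖ ≤ |2 * Real.pi * s| := by
    unfold e
    rw [show (2 * (Real.pi : ℂ) * s * Complex.I) = Complex.I * ((2 * Real.pi * s : ℝ) : ℂ) by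
      push_cast; ring]
    have := Real.norm_exp_I_mul_ofReal_sub_one_le (x := 2 * Real.pi * s)
    simpa using this
  refine h3.trans ?_
  rw [abs_mul, abs_of_pos (by positivity : (0 : ℝ) < 2 * Real.pi)]
  exact mul_le_mul_of_nonneg_left h (by positivity)

/-- the uniform form of the theorem of Weyl for all degrees `≤ d` at once -/
lemma weyl_all (d : ℕ) (κ : ℝ) (hκ : 0 < κ) : ∃ M : ℕ, 1 ≤ M ∧ ∀ η : ℝ, 0 < η → ∃ N₀ : ℕ,
    ∀ r < d, ∀ P : ℝ[X], P.natDegree ≤ r + 1 →
      (∀ m ∈ Finset.Icc 1 M, η ≤ |(m : ℝ) * P.coeff (r + 1) - round ((m : ℝ) * P.coeff (r + 1))|) →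
      ∀ N ≥ N₀, ‖∑ l ∈ range N, e (P.eval (l : ℝ))‖ ≤ κ * N := by
  choose Mf hM1 hM using fun r => Pool.Agent.H238R3.UL.weyl_unif r κ hκ
  refine ⟨∑ r ∈ range d, Mf r + 1, by omega, fun η hη => ?_⟩
  choose Nf hN using fun r => hM r η hη
  refine ⟨∑ r ∈ range d, Nf r, fun r hr P hP hm N hN' => ?_⟩
  have h1 : Mf r ≤ ∑ r ∈ range d, Mf r :=
    single_le_sum (f := Mf) (fun _ _ => Nat.zero_le _) (mem_range.2 hr)
  have h2 : Nf r ≤ ∑ r ∈ range d, Nf r :=
    single_le_sum (f := Nf) (fun _ _ => Nat.zero_le _) (mem_range.2 hr)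
  refine hN r P hP (fun m hm' => hm m ?_) N (h2.trans hN')
  rw [mem_Icc] at hm' ⊢
  exact ⟨hm'.1, by omega⟩

/-- the polynomial `∑_{r < i} α_r (W (x + 1))^(r + 1)` -/
noncomputable def pol (α : ℕ → ℝ) (W : ℝ) (i : ℕ) : ℝ[X] :=
  ∑ r ∈ range i, C (α r * W ^ (r + 1)) * (X + C 1) ^ (r + 1)

lemma pol_eval (α : ℕ → ℝ) (W : ℝ) (i : ℕ) (x : ℝ) :
    (pol α W i).eval x = ∑ r ∈ range i, α r * (W * (x + 1)) ^ (r + 1) := by
  unfold pol
  rw [eval_finsetSum]
  apply Finset.sum_congr rfl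
  intro r _
  simp only [eval_mul, eval_C, eval_pow, eval_add, eval_X]
  rw [mul_pow]; ring

lemma pol_deg (α : ℕ → ℝ) (W : ℝ) (i : ℕ) : (pol α W i).natDegree ≤ i := by
  unfold pol
  apply natDegree_sum_le_of_forall_le
  intro r hr
  refine (natDegree_C_mul_le _ _).trans (natDegree_pow_le.trans ?_)
  rw [natDegree_X_add_C, mul_one]
  exact mem_range.1 hr

lemma pol_coeff (α : ℕ → ℝ) (W : ℝ) (i : ℕ) : (pol α W (i + 1)).coeff (i + 1) = α i * W ^ (i + 1) := by
  have h1 : pol α W (i + 1) = pol α W i + C (α i * W ^ (i + 1)) * (X + C 1) ^ (i + 1) := by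
    unfold pol
    rw [Finset.sum_range_succ]
  rw [h1, coeff_add, coeff_eq_zero_of_natDegree_lt (lt_of_le_of_lt (pol_deg α W i) (Nat.lt_succ_self i)),
    zero_add, coeff_C_mul]
  have h2 : ((X + C 1 : ℝ[X]) ^ (i + 1)).coeff (i + 1) = 1 := by
    have h3 := (monic_X_add_C (1 : ℝ)).pow (i + 1)
    have h4 : ((X + C 1 : ℝ[X]) ^ (i + 1)).natDegree = i + 1 := by
      rw [natDegree_pow, natDegree_X_add_C, mul_one]
    have h5 := h3.coeff_natDegree
    rwa [h4] at h5
  rw [h2, mul_one]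

/-- the terms -/
noncomputable def term (α : ℕ → ℝ) (W : ℝ) (r l : ℕ) : ℝ := α r * (W * ((l : ℝ) + 1)) ^ (r + 1)

/-- the partial exponential sums -/
noncomputable def ES (α : ℕ → ℝ) (W : ℝ) (N i : ℕ) : ℂ :=
  ∑ l ∈ range N, e (∑ r ∈ range i, term α W r l)

lemma ES_zero (α : ℕ → ℝ) (W : ℝ) (N : ℕ) : ES α W N 0 = N := by
  unfold ES; simp [e_zero]

lemma ES_norm (α : ℕ → ℝ) (W : ℝ) (N i : ℕ) : ‖ES α W N i‖ ≤ N := by
  unfold ES
  refine (norm_sum_le _ _).trans ?_
  simp [norm_e1]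

lemma ES_succ (α : ℕ → ℝ) (W : ℝ) (N i : ℕ) {τ : ℝ}
    (h : ∀ l < N, |term α W i l - round (term α W i l)| ≤ τ) :
    ‖ES α W N (i + 1) - ES α W N i‖ ≤ 2 * Real.pi * τ * N := by
  unfold ES
  rw [← Finset.sum_sub_distrib]
  refine (norm_sum_le _ _).trans ?_
  calc ∑ l ∈ range N, ‖e (∑ r ∈ range (i + 1), term α W r l) - e (∑ r ∈ range i, term α W r l)‖
      ≤ ∑ _l ∈ range N, 2 * Real.pi * τ := by
        apply Finset.sum_le_sum
        intro l hl
        rw [Finset.sum_range_succ, e_add]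
        have h1 : e (∑ r ∈ range i, term α W r l) * e (term α W i l) - e (∑ r ∈ range i, term α W r l) =
          e (∑ r ∈ range i, term α W r l) * (e (term α W i l) - 1) := by ring
        rw [h1, norm_mul, norm_e1, one_mul]
        exact e_near (h l (mem_range.1 hl))
    _ = _ := by rw [sum_const, card_range, nsmul_eq_mul]; ring

lemma ES_tail (α : ℕ → ℝ) (W : ℝ) (N i d : ℕ) (hid : i ≤ d) {τ : ℝ} (hτ : 0 ≤ τ)
    (h : ∀ r, i ≤ r → r < d → ∀ l < N, |term α W r l - round (term α W r l)| ≤ τ) :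
    ‖ES α W N d - ES α W N i‖ ≤ 2 * Real.pi * τ * d * N := by
  have key : ∀ k, i ≤ k → k ≤ d → ‖ES α W N k - ES α W N i‖ ≤ 2 * Real.pi * τ * N * (k - i : ℕ) := by
    intro k hk
    induction k, hk using Nat.le_induction with
    | base => intro _; simp
    | succ k hk ih =>
      intro hkd
      have h1 := ih (by omega)
      have h2 := ES_succ α W N k (h k hk (by omega))
      have h3 : ES α W N (k + 1) - ES α W N i =
        (ES α W N (k + 1) - ES α W N k) + (ES α W N k - ES α W N i) := by ring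
      rw [h3]
      refine (norm_add_le _ _).trans ?_
      have h4 : ((k + 1 - i : ℕ) : ℝ) = ((k - i : ℕ) : ℝ) + 1 := by
        have : k + 1 - i = (k - i) + 1 := by omega
        rw [this]; push_cast; ring
      rw [h4]
      linarith
  have h5 := key d hid le_rfl
  refine h5.trans ?_
  have h6 : ((d - i : ℕ) : ℝ) ≤ d := by exact_mod_cast Nat.sub_le d i
  have h7 : 0 ≤ 2 * Real.pi * τ * N := by have := Real.pi_pos; positivity
  calc 2 * Real.pi * τ * N * (d - i : ℕ) ≤ 2 * Real.pi * τ * N * d := mul_le_mul_of_nonneg_left h6 h7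
    _ = _ := by ring

/-- a finite probability measure on the positive integers with almost nonnegative polynomial Fourier transform -/
theorem pv (d : ℕ) {ε : ℝ} (hε : 0 < ε) : ∃ (J : ℕ) (N W : ℕ → ℕ), 0 < J ∧
    (∀ j, 1 ≤ N j) ∧ (∀ j, 1 ≤ W j) ∧ ∀ α : ℕ → ℝ,
      -ε * J ≤ ∑ j ∈ range J, (1 / (N j : ℝ)) * ∑ l ∈ range (N j),
        Real.cos (2 * Real.pi * ∑ r ∈ range d, α r * ((W j : ℝ) * ((l : ℝ) + 1)) ^ (r + 1)) := by
  classical
  have hpi := Real.pi_pos
  set κ : ℝ := ε / 4 with hκ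
  have hκ0 : 0 < κ := by positivity
  set τ : ℝ := ε / (8 * Real.pi * (d + 1)) with hτ
  have hτ0 : 0 < τ := by positivity
  have hτd : 2 * Real.pi * τ * d ≤ ε / 4 := by
    have h1 : 2 * Real.pi * τ * (d + 1) = ε / 4 := by rw [hτ]; field_simp; ring
    have h2 : 2 * Real.pi * τ * d ≤ 2 * Real.pi * τ * (d + 1) := by
      apply mul_le_mul_of_nonneg_left _ (by positivity); linarith
    linarith
  obtain ⟨J, hJ⟩ := exists_nat_ge (max 1 (2 * d / ε))
  have hJ1 : (1 : ℝ) ≤ J := (le_max_left _ _).trans hJ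
  have hJ0 : 0 < J := by
    have : (0 : ℝ) < J := by linarith
    exact_mod_cast this
  have hJd : (d : ℝ) ≤ ε / 2 * J := by
    have h1 : 2 * d / ε ≤ J := (le_max_right _ _).trans hJ
    rw [div_le_iff₀ hε] at h1
    linarith
  obtain ⟨M, hM1, hM⟩ := weyl_all d κ hκ0
  choose Nz hNz using hM
  set Λ : ℕ := M.factorial with hΛ
  have hΛ1 : 1 ≤ Λ := Nat.factorial_pos M
  -- the tolerance
  set ηf : ℕ → ℝ := fun n => τ / (((Λ ^ J * (n + 1) : ℕ) : ℝ) ^ d) with hηf
  have hη0 : ∀ n, 0 < ηf n := by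
    intro n
    simp only [hηf]
    have : 0 < ((Λ ^ J * (n + 1) : ℕ) : ℝ) := by exact_mod_cast (by positivity)
    positivity
  -- the lengths
  set Nf : ℕ → ℕ := fun k => Nat.rec (max (Nz 1 one_pos) 1)
    (fun _ a => max (Nz (ηf a) (hη0 a)) a) k with hNf
  have hNf0 : Nf 0 = max (Nz 1 one_pos) 1 := rfl
  have hNfs : ∀ k, Nf (k + 1) = max (Nz (ηf (Nf k)) (hη0 _)) (Nf k) := fun k => rfl
  have hNmono : Monotone Nf := monotone_nat_of_le_succ fun k => by
    rw [hNfs]; exact le_max_right _ _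
  have hN1 : ∀ k, 1 ≤ Nf k := fun k => by
    have h1 := hNmono (Nat.zero_le k)
    have h2 : 1 ≤ Nf 0 := by rw [hNf0]; exact le_max_right _ _
    omega
  set Wf : ℕ → ℕ := fun k => Λ ^ (J - k) with hWf
  have hW1 : ∀ k, 1 ≤ Wf k := fun k => Nat.one_le_pow _ _ hΛ1
  refine ⟨J, Nf, Wf, hJ0, hN1, hW1, fun α => ?_⟩
  -- the tolerance at level `k`
  have hlevel : ∀ k, ∃ η : ℝ, 0 < η ∧ (∀ k' < k, η * (((Λ ^ J * Nf k' : ℕ) : ℝ) ^ d) ≤ τ) ∧
      ∀ r < d, ∀ P : ℝ[X], P.natDegree ≤ r + 1 →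
      (∀ m ∈ Finset.Icc 1 M, η ≤ |(m : ℝ) * P.coeff (r + 1) - round ((m : ℝ) * P.coeff (r + 1))|) →
      ‖∑ l ∈ range (Nf k), e (P.eval (l : ℝ))‖ ≤ κ * Nf k := by
    intro k
    cases k with
    | zero =>
      refine ⟨1, one_pos, fun k' hk' => absurd hk' (Nat.not_lt_zero _), fun r hr P hP hm => ?_⟩
      exact hNz 1 one_pos r hr P hP hm (Nf 0) (by rw [hNf0]; exact le_max_left _ _)
    | succ k =>
      refine ⟨ηf (Nf k), hη0 _, fun k' hk' => ?_, fun r hr P hP hm => ?_⟩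
      · simp only [hηf]
        have h1 : Nf k' ≤ Nf k + 1 := (hNmono (Nat.lt_succ_iff.1 hk')).trans (Nat.le_succ _)
        have h2 : ((Λ ^ J * Nf k' : ℕ) : ℝ) ≤ ((Λ ^ J * (Nf k + 1) : ℕ) : ℝ) := by
          exact_mod_cast Nat.mul_le_mul_left _ h1
        have h3 : ((Λ ^ J * Nf k' : ℕ) : ℝ) ^ d ≤ ((Λ ^ J * (Nf k + 1) : ℕ) : ℝ) ^ d :=
          pow_le_pow_left₀ (Nat.cast_nonneg _) h2 d
        have h4 : 0 < ((Λ ^ J * (Nf k + 1) : ℕ) : ℝ) ^ d := by
          have : 0 < ((Λ ^ J * (Nf k + 1) : ℕ) : ℝ) := by exact_mod_cast (by positivity)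
          positivity
        rw [div_mul_eq_mul_div, div_le_iff₀ h4]
        exact mul_le_mul_of_nonneg_left h3 hτ0.le
      · exact hNz (ηf (Nf k)) (hη0 _) r hr P hP hm (Nf (k + 1)) (by rw [hNfs]; exact le_max_left _ _)
  choose ηk hηk0 hηk1 hηk2 using hlevel
  -- resolved terms
  set res : ℕ → ℕ → Prop := fun j r => ∀ l < Nf j,
    |term α (Wf j) r l - round (term α (Wf j) r l)| ≤ τ with hres
  -- a near rational at level `k` resolves the term at all lower levels
  have hresolve : ∀ k < J, ∀ k' < k, ∀ r < d, ∀ m ∈ Finset.Icc 1 M,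
      |(m : ℝ) * (α r * (Wf k : ℝ) ^ (r + 1)) - round ((m : ℝ) * (α r * (Wf k : ℝ) ^ (r + 1)))| < ηk k →
      res k' r := by
    intro k hk k' hk' r hr m hm hlt l hl
    rw [mem_Icc] at hm
    have hWW : Wf k' = Wf k * Λ ^ (k - k') := by
      simp only [hWf]
      rw [← pow_add]
      congr 1
      omega
    have hmΛ : m ∣ Λ := Nat.dvd_factorial (by omega) hm.2
    obtain ⟨c, hc⟩ : m ∣ (Λ ^ (k - k') * (l + 1)) ^ (r + 1) := by
      have h1 : Λ ∣ Λ ^ (k - k') := dvd_pow_self _ (by omega)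
      exact (hmΛ.trans (h1.trans (Dvd.intro _ rfl))).trans (dvd_pow_self _ (by omega))
    set x : ℝ := (m : ℝ) * (α r * (Wf k : ℝ) ^ (r + 1)) with hx
    have hterm : term α (Wf k') r l = x * c := by
      unfold term
      rw [hWW]
      push_cast
      have h2 : ((Λ : ℝ) ^ (k - k') * ((l : ℝ) + 1)) ^ (r + 1) = m * c := by exact_mod_cast hc
      have h3 : ((Wf k : ℝ) * (Λ : ℝ) ^ (k - k') * ((l : ℝ) + 1)) ^ (r + 1) =
        (Wf k : ℝ) ^ (r + 1) * (((Λ : ℝ) ^ (k - k') * ((l : ℝ) + 1)) ^ (r + 1)) := by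
        rw [← mul_pow]; ring
      rw [h3, h2, hx]; ring
    have hcle : (c : ℝ) ≤ ((Λ ^ J * Nf k' : ℕ) : ℝ) ^ d := by
      have h1 : c ≤ (Λ ^ (k - k') * (l + 1)) ^ (r + 1) := by
        rw [hc]; exact Nat.le_mul_of_pos_left c hm.1
      have h2 : Λ ^ (k - k') * (l + 1) ≤ Λ ^ J * Nf k' := by
        apply Nat.mul_le_mul _ hl
        exact Nat.pow_le_pow_right hΛ1 (by omega)
      have h3 : (Λ ^ (k - k') * (l + 1)) ^ (r + 1) ≤ (Λ ^ J * Nf k') ^ (r + 1) :=
        Nat.pow_le_pow_left h2 _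
      have h4 : 1 ≤ Λ ^ J * Nf k' := Nat.mul_pos (Nat.one_le_pow _ _ hΛ1) (hN1 k')
      have h5 : (Λ ^ J * Nf k') ^ (r + 1) ≤ (Λ ^ J * Nf k') ^ d := Nat.pow_le_pow_right h4 hr
      exact_mod_cast (h1.trans h3).trans h5
    have h6 : |term α (Wf k') r l - ((round x * c : ℤ) : ℝ)| ≤ τ := by
      rw [hterm]
      push_cast
      rw [← sub_mul, abs_mul, Nat.abs_cast]
      calc |x - round x| * (c : ℝ) ≤ ηk k * (((Λ ^ J * Nf k' : ℕ) : ℝ) ^ d) :=
            mul_le_mul hlt.le hcle (Nat.cast_nonneg _) (hηk0 k).le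
        _ ≤ τ := hηk1 k k' hk'
    exact (round_le _ _).trans h6
  -- the bad levels
  set B : Finset ℕ := (range J).filter (fun j => (ES α (Wf j) (Nf j) d).re <
    -(κ + 2 * Real.pi * τ * d) * Nf j) with hB
  have hbad : ∀ j ∈ B, ∃ r < d, ¬ res j r ∧ ∃ m ∈ Finset.Icc 1 M,
      |(m : ℝ) * (α r * (Wf j : ℝ) ^ (r + 1)) - round ((m : ℝ) * (α r * (Wf j : ℝ) ^ (r + 1)))| < ηk j := by
    intro j hj
    have hjb := (mem_filter.1 hj).2
    have hex : ∃ i, ∀ r, i ≤ r → r < d → res j r := ⟨d, fun r h1 h2 => absurd h2 (by omega)⟩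
    set i := Nat.find hex with hi
    have hi1 : ∀ r, i ≤ r → r < d → res j r := Nat.find_spec hex
    have hid : i ≤ d := Nat.find_min' hex fun r h1 h2 => absurd h2 (by omega)
    have htail := ES_tail α (Wf j) (Nf j) i d hid hτ0.le hi1
    have hre : (ES α (Wf j) (Nf j) i).re - 2 * Real.pi * τ * d * Nf j ≤ (ES α (Wf j) (Nf j) d).re := by
      have h1 := (Complex.abs_re_le_norm (ES α (Wf j) (Nf j) d - ES α (Wf j) (Nf j) i)).trans htail
      rw [Complex.sub_re] at h1
      linarith [(abs_le.1 h1).1]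
    rcases Nat.eq_zero_or_pos i with h0 | hpos
    · exfalso
      rw [h0, ES_zero] at hre
      simp only [Complex.natCast_re] at hre
      have h2 : (0 : ℝ) ≤ Nf j := Nat.cast_nonneg _
      have h3 : 0 ≤ κ * Nf j := by positivity
      nlinarith
    · obtain ⟨r, hr⟩ : ∃ r, i = r + 1 := ⟨i - 1, by omega⟩
      refine ⟨r, by omega, ?_, ?_⟩
      · intro hrr
        have hmin := Nat.find_min hex (m := r) (by omega)
        apply hmin
        intro r' h1 h2
        rcases Nat.eq_or_lt_of_le h1 with h3 | h3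
        · rw [← h3]; exact hrr
        · exact hi1 r' (by omega) h2
      · by_contra hno
        push Not at hno
        have h4 := hηk2 j r (by omega) (pol α (Wf j) (r + 1)) (pol_deg _ _ _) (by
          intro m hm
          rw [pol_coeff]
          exact hno m hm)
        have h5 : ∑ l ∈ range (Nf j), e ((pol α (Wf j) (r + 1)).eval (l : ℝ)) =
            ES α (Wf j) (Nf j) i := by
          unfold ES term
          rw [hr]
          apply Finset.sum_congr rfl
          intro l _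
          rw [pol_eval]
        rw [h5] at h4
        have h6 := (Complex.abs_re_le_norm (ES α (Wf j) (Nf j) i)).trans h4
        have h7 := (abs_le.1 h6).1
        have h8 : -(κ + 2 * Real.pi * τ * d) * (Nf j : ℝ) ≤ (ES α (Wf j) (Nf j) d).re := by
          have : -(κ + 2 * Real.pi * τ * d) * (Nf j : ℝ) =
            -(κ * Nf j) - 2 * Real.pi * τ * d * Nf j := by ring
          rw [this]
          linarith
        linarith
  choose! ρ hρd hρres hρm using hbad
  have hBcard : B.card ≤ d := by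
    have h1 : B.card ≤ (range d).card := by
      apply card_le_card_of_injOn ρ (fun j hj => by
        simpa using hρd j hj)
      intro a ha b hb hab
      by_contra hne
      rcases lt_or_gt_of_ne hne with h | h
      · obtain ⟨m, hm, hlt⟩ := hρm b hb
        have := hresolve b (mem_range.1 (mem_filter.1 hb).1) a h (ρ b) (hρd b hb) m hm hlt
        rw [← hab] at this
        exact hρres a ha this
      · obtain ⟨m, hm, hlt⟩ := hρm a ha
        have := hresolve a (mem_range.1 (mem_filter.1 ha).1) b h (ρ a) (hρd a ha) m hm hlt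
        rw [hab] at this
        exact hρres b hb this
    rwa [card_range] at h1
  -- the sum
  have hlow : ∀ j ∈ range J, -(κ + 2 * Real.pi * τ * d) - (if j ∈ B then 1 else 0) ≤
      (1 / (Nf j : ℝ)) * ∑ l ∈ range (Nf j),
        Real.cos (2 * Real.pi * ∑ r ∈ range d, α r * ((Wf j : ℝ) * ((l : ℝ) + 1)) ^ (r + 1)) := by
    intro j hj
    have hNj : (0 : ℝ) < Nf j := by exact_mod_cast hN1 j
    have h1 : ∑ l ∈ range (Nf j),
        Real.cos (2 * Real.pi * ∑ r ∈ range d, α r * ((Wf j : ℝ) * ((l : ℝ) + 1)) ^ (r + 1)) =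
        (ES α (Wf j) (Nf j) d).re := by
      unfold ES term
      rw [Complex.re_sum]
      exact Finset.sum_congr rfl fun l _ => (re_e _).symm
    rw [h1, one_div, inv_mul_eq_div, le_div_iff₀ hNj]
    by_cases hjB : j ∈ B
    · rw [if_pos hjB]
      have h2 := (Complex.abs_re_le_norm (ES α (Wf j) (Nf j) d)).trans (ES_norm α (Wf j) (Nf j) d)
      have h3 := (abs_le.1 h2).1
      have h4 : 0 ≤ (κ + 2 * Real.pi * τ * d) * (Nf j : ℝ) := by positivity
      have h5 : (-(κ + 2 * Real.pi * τ * d) - 1) * (Nf j : ℝ) =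
        -((κ + 2 * Real.pi * τ * d) * (Nf j : ℝ)) - Nf j := by ring
      rw [h5]; linarith
    · rw [if_neg hjB, sub_zero]
      by_contra hlt
      push Not at hlt
      exact hjB (mem_filter.2 ⟨hj, hlt⟩)
  refine le_trans ?_ (Finset.sum_le_sum hlow)
  rw [Finset.sum_sub_distrib, Finset.sum_const, card_range, nsmul_eq_mul]
  have h1 : ∑ j ∈ range J, (if j ∈ B then (1 : ℝ) else 0) = B.card := by
    rw [← Finset.sum_filter, Finset.sum_const, nsmul_eq_mul, mul_one]
    congr 2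
    ext j
    simp only [mem_filter, hB]
    tauto
  rw [h1]
  have h2 : (B.card : ℝ) ≤ d := by exact_mod_cast hBcard
  have h3 : κ + 2 * Real.pi * τ * d ≤ ε / 2 := by rw [hκ]; linarith
  have h4 : (J : ℝ) * (κ + 2 * Real.pi * τ * d) ≤ J * (ε / 2) :=
    mul_le_mul_of_nonneg_left h3 (Nat.cast_nonneg _)
  have h5 : (J : ℝ) * -(κ + 2 * Real.pi * τ * d) = -(J * (κ + 2 * Real.pi * τ * d)) := by ring
  rw [h5]
  linarith

end Pool.Agent.V1161.VC
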