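import Pool.Agent.V1161.VC.Poly

/-!
# Positive definiteness, finite form

If the cosine transform of a finite measure on `ℕ ^ d` is at least `-ε`, then the corresponding averages of the
correlations of a function on a box are at least `-ε` times the square of its norm.
-/

set_option autoImplicit false

namespace Pool.Agent.V1161.VC

open Filter Topology Finset Complex
open Pool.Agent.H332R2.Lit (e e_add)

lemma e_nat_mul (k : ℕ) (t : ℝ) : e (k * t) = e t ^ k := by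
  unfold e
  rw [← Complex.exp_nat_mul]
  congr 1
  push_cast
  ring

lemma e_sum {ι : Type*} (s : Finset ι) (f : ι → ℝ) : e (∑ i ∈ s, f i) = ∏ i ∈ s, e (f i) := by
  classical
  induction s using Finset.induction_on with
  | empty => simp [e_zero]
  | insert a s ha ih => rw [Finset.sum_insert ha, Finset.prod_insert ha, e_add, ih]

lemma e_conj (t : ℝ) : (starRingEnd ℂ) (e t) = e (-t) := by
  unfold e
  rw [← Complex.exp_conj]
  congr 1
  simp only [map_mul, Complex.conj_I, Complex.conj_ofReal, map_ofNat]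
  push_cast
  ring

lemma geom1 (M : ℕ) (hM : 0 < M) (u : ℤ) : ∑ k ∈ range M, e ((k : ℝ) * ((u : ℝ) / M)) =
    if (M : ℤ) ∣ u then (M : ℂ) else 0 := by
  have hM' : (M : ℝ) ≠ 0 := by exact_mod_cast hM.ne'
  by_cases h : (M : ℤ) ∣ u
  · obtain ⟨c, rfl⟩ := h
    rw [if_pos ⟨c, rfl⟩]
    have h1 : ∀ k ∈ range M, e ((k : ℝ) * (((M * c : ℤ) : ℝ) / M)) = 1 := by
      intro k _
      have h2 : (k : ℝ) * (((M * c : ℤ) : ℝ) / M) = ((k * c : ℤ) : ℝ) := by
        push_cast; field_simp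
      rw [h2, e_int]
    rw [Finset.sum_congr rfl h1]
    simp
  · rw [if_neg h]
    set z := e ((u : ℝ) / M) with hz
    have h1 : ∀ k ∈ range M, e ((k : ℝ) * ((u : ℝ) / M)) = z ^ k := fun k _ => e_nat_mul k _
    rw [Finset.sum_congr rfl h1]
    have hzM : z ^ M = 1 := by
      rw [hz, ← e_nat_mul]
      have h2 : (M : ℝ) * ((u : ℝ) / M) = (u : ℤ) := by field_simp
      rw [h2, e_int]
    have hz1 : z ≠ 1 := by
      intro h2
      rw [hz] at h2
      unfold e at h2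
      rw [Complex.exp_eq_one_iff] at h2
      obtain ⟨n, hn⟩ := h2
      apply h
      have h3 : (2 * (Real.pi : ℂ) * Complex.I) ≠ 0 := by
        simp [Real.pi_ne_zero]
      have h4 : ((u : ℝ) / M : ℝ) = (n : ℝ) := by
        have h5 : (2 * (Real.pi : ℂ) * Complex.I) * (((u : ℝ) / M : ℝ) : ℂ) =
            (2 * (Real.pi : ℂ) * Complex.I) * ((n : ℝ) : ℂ) := by
          have h6 : 2 * (Real.pi : ℂ) * (((u : ℝ) / M : ℝ) : ℂ) * Complex.I =
            (2 * (Real.pi : ℂ) * Complex.I) * (((u : ℝ) / M : ℝ) : ℂ) := by ring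
          rw [← h6, hn]
          push_cast
          ring
        have h7 := mul_left_cancel₀ h3 h5
        exact_mod_cast h7
      rw [div_eq_iff hM'] at h4
      refine ⟨n, ?_⟩
      have h8 : (u : ℝ) = ((M * n : ℤ) : ℝ) := by push_cast; rw [h4]; ring
      exact_mod_cast h8
    rw [geom_sum_eq hz1, hzM, sub_self, zero_div]

lemma orth {d : ℕ} (M : ℕ) (hM : 0 < M) (u : Fin d → ℤ) :
    ∑ a ∈ Fintype.piFinset (fun _ : Fin d => range M), e (∑ r, ((a r : ℕ) : ℝ) * ((u r : ℝ) / M)) =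
      if ∀ r, (M : ℤ) ∣ u r then (M : ℂ) ^ d else 0 := by
  classical
  have h1 : ∀ a ∈ Fintype.piFinset (fun _ : Fin d => range M),
      e (∑ r, ((a r : ℕ) : ℝ) * ((u r : ℝ) / M)) = ∏ r, e (((a r : ℕ) : ℝ) * ((u r : ℝ) / M)) :=
    fun a _ => e_sum _ _
  rw [Finset.sum_congr rfl h1,
    ← Finset.prod_univ_sum (fun _ : Fin d => range M) (fun r k => e ((k : ℝ) * ((u r : ℝ) / M)))]
  simp_rw [geom1 M hM]
  by_cases h : ∀ r, (M : ℤ) ∣ u r
  · rw [if_pos h]
    rw [Finset.prod_congr rfl (fun r _ => if_pos (h r))]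
    simp
  · rw [if_neg h]
    push Not at h
    obtain ⟨r, hr⟩ := h
    exact Finset.prod_eq_zero (Finset.mem_univ r) (if_neg hr)

/-- the box -/
abbrev box (d V : ℕ) : Finset (Fin d → ℕ) := Fintype.piFinset (fun _ => range V)

/-- Parseval's formula for the correlations of a function supported in a box -/
lemma parseval {d : ℕ} (V M : ℕ) (y : (Fin d → ℕ) → ℝ) (hy : ∀ v, v ∉ box d V → y v = 0)
    (γ : Fin d → ℕ) (hM : ∀ r, V + γ r ≤ M) (hM0 : 0 < M) :
    ∑ a ∈ box d M, ‖∑ v ∈ box d V, (y v : ℂ) * e (∑ r, ((a r : ℕ) : ℝ) * (((v r : ℕ) : ℝ) / M))‖ ^ 2 *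
        Real.cos (2 * Real.pi * ∑ r, ((a r : ℕ) : ℝ) * (((γ r : ℕ) : ℝ) / M)) =
      (M : ℝ) ^ d * ∑ v ∈ box d V, y v * y (v + γ) := by
  classical
  set F : (Fin d → ℕ) → ℂ := fun a =>
    ∑ v ∈ box d V, (y v : ℂ) * e (∑ r, ((a r : ℕ) : ℝ) * (((v r : ℕ) : ℝ) / M)) with hF
  have h1 : ∀ a, ‖F a‖ ^ 2 * Real.cos (2 * Real.pi * ∑ r, ((a r : ℕ) : ℝ) * (((γ r : ℕ) : ℝ) / M)) =
      ((F a * (starRingEnd ℂ) (F a)) *
        e (-(∑ r, ((a r : ℕ) : ℝ) * (((γ r : ℕ) : ℝ) / M)))).re := by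
    intro a
    rw [Complex.mul_conj, Complex.re_ofReal_mul, re_e, Complex.normSq_eq_norm_sq]
    congr 1
    rw [mul_neg, Real.cos_neg]
  have h2 : ∀ a, (F a * (starRingEnd ℂ) (F a)) *
        e (-(∑ r, ((a r : ℕ) : ℝ) * (((γ r : ℕ) : ℝ) / M))) =
      ∑ v' ∈ box d V, ∑ v ∈ box d V, ((y v' : ℂ) * y v) *
        e (∑ r, ((a r : ℕ) : ℝ) * ((((v' r : ℤ) - v r - γ r : ℤ) : ℝ) / M)) := by
    intro a
    rw [hF]
    simp only
    rw [map_sum, Finset.sum_mul_sum, Finset.sum_mul]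
    apply Finset.sum_congr rfl
    intro v' _
    rw [Finset.sum_mul]
    apply Finset.sum_congr rfl
    intro v _
    rw [map_mul, Complex.conj_ofReal, e_conj]
    have h3 : (∑ r, ((a r : ℕ) : ℝ) * ((((v' r : ℤ) - v r - γ r : ℤ) : ℝ) / M)) =
        (∑ r, ((a r : ℕ) : ℝ) * (((v' r : ℕ) : ℝ) / M)) + (-(∑ r, ((a r : ℕ) : ℝ) * (((v r : ℕ) : ℝ) / M))) +
          (-(∑ r, ((a r : ℕ) : ℝ) * (((γ r : ℕ) : ℝ) / M))) := by
      rw [← Finset.sum_neg_distrib, ← Finset.sum_neg_distrib, ← Finset.sum_add_distrib,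
        ← Finset.sum_add_distrib]
      apply Finset.sum_congr rfl
      intro r _
      push_cast
      ring
    rw [h3, e_add, e_add]
    ring
  have h4 : ∑ a ∈ box d M, ‖F a‖ ^ 2 *
      Real.cos (2 * Real.pi * ∑ r, ((a r : ℕ) : ℝ) * (((γ r : ℕ) : ℝ) / M)) =
      (∑ v' ∈ box d V, ∑ v ∈ box d V, ((y v' : ℂ) * y v) *
        (if ∀ r, (M : ℤ) ∣ ((v' r : ℤ) - v r - γ r) then (M : ℂ) ^ d else 0)).re := by
    rw [Finset.sum_congr rfl (fun a _ => h1 a), ← Complex.re_sum, Finset.sum_congr rfl (fun a _ => h2 a),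
      Finset.sum_comm]
    congr 1
    apply Finset.sum_congr rfl
    intro v' _
    rw [Finset.sum_comm]
    apply Finset.sum_congr rfl
    intro v _
    rw [← Finset.mul_sum, orth M hM0 (fun r => (v' r : ℤ) - v r - γ r)]
  rw [h4]
  have h5 : ∀ v' ∈ box d V, ∀ v ∈ box d V, ((∀ r, (M : ℤ) ∣ ((v' r : ℤ) - v r - γ r)) ↔ v' = v + γ) := by
    intro v' hv' v hv
    rw [Fintype.mem_piFinset] at hv' hv
    constructor
    · intro h
      funext r
      have h6 := h r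
      have h7 := mem_range.1 (hv' r)
      have h8 := mem_range.1 (hv r)
      have h9 := hM r
      have h10 : (v' r : ℤ) - v r - γ r = 0 := by
        apply Int.eq_zero_of_abs_lt_dvd h6
        rw [abs_lt]
        constructor <;> omega
      simp only [Pi.add_apply]
      omega
    · rintro rfl r
      simp only [Pi.add_apply]
      have : ((v r + γ r : ℕ) : ℤ) - v r - γ r = 0 := by push_cast; ring
      rw [this]
      exact dvd_zero _
  have h6 : ∑ v' ∈ box d V, ∑ v ∈ box d V, ((y v' : ℂ) * y v) *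
        (if ∀ r, (M : ℤ) ∣ ((v' r : ℤ) - v r - γ r) then (M : ℂ) ^ d else 0) =
      (((M : ℝ) ^ d * ∑ v ∈ box d V, y v * y (v + γ) : ℝ) : ℂ) := by
    rw [Finset.sum_comm]
    push_cast
    rw [Finset.mul_sum]
    apply Finset.sum_congr rfl
    intro v hv
    have h7 : ∀ v' ∈ box d V, ((y v' : ℂ) * y v) *
        (if ∀ r, (M : ℤ) ∣ ((v' r : ℤ) - v r - γ r) then (M : ℂ) ^ d else 0) =
        if v' = v + γ then ((y v' : ℂ) * y v) * (M : ℂ) ^ d else 0 := by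
      intro v' hv'
      have := h5 v' hv' v hv
      by_cases h8 : v' = v + γ
      · rw [if_pos h8, if_pos (this.2 h8)]
      · rw [if_neg h8, if_neg (fun h => h8 (this.1 h)), mul_zero]
    rw [Finset.sum_congr rfl h7, Finset.sum_ite_eq']
    by_cases h9 : v + γ ∈ box d V
    · rw [if_pos h9]; ring
    · rw [if_neg h9, hy _ h9]; simp
  rw [h6]
  exact Complex.ofReal_re _

/-- positive definiteness -/
theorem posdef {d : ℕ} {ι : Type*} (s : Finset ι) (ν : ι → ℝ) (γ : ι → Fin d → ℕ) {ε : ℝ}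
    (h : ∀ α : Fin d → ℝ, -ε ≤ ∑ x ∈ s, ν x * Real.cos (2 * Real.pi * ∑ r, α r * (γ x r : ℝ)))
    (V : ℕ) (y : (Fin d → ℕ) → ℝ) (hy : ∀ v, v ∉ box d V → y v = 0) :
    -ε * ∑ v ∈ box d V, y v ^ 2 ≤ ∑ x ∈ s, ν x * ∑ v ∈ box d V, y v * y (v + γ x) := by
  classical
  obtain ⟨M, hM⟩ : ∃ M : ℕ, ∀ x ∈ s, ∀ r, V + γ x r ≤ M :=
    ⟨V + ∑ x ∈ s, ∑ r, γ x r, fun x hx r => by
      have h1 : γ x r ≤ ∑ r, γ x r := single_le_sum (f := fun r => γ x r) (fun _ _ => Nat.zero_le _) (mem_univ r)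
      have h2 : ∑ r, γ x r ≤ ∑ x ∈ s, ∑ r, γ x r :=
        single_le_sum (f := fun x => ∑ r, γ x r) (fun _ _ => Nat.zero_le _) hx
      omega⟩
  set M' := M + V + 1 with hM'
  have hM'0 : 0 < M' := by omega
  have hMp : (0 : ℝ) < (M' : ℝ) ^ d := by
    have : (0 : ℝ) < M' := by exact_mod_cast hM'0
    positivity
  set F : (Fin d → ℕ) → ℝ := fun a =>
    ‖∑ v ∈ box d V, (y v : ℂ) * e (∑ r, ((a r : ℕ) : ℝ) * (((v r : ℕ) : ℝ) / M'))‖ ^ 2 with hF
  have hpar : ∀ x ∈ s, ∑ a ∈ box d M', F a *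
      Real.cos (2 * Real.pi * ∑ r, ((a r : ℕ) : ℝ) * (((γ x r : ℕ) : ℝ) / M')) =
      (M' : ℝ) ^ d * ∑ v ∈ box d V, y v * y (v + γ x) := fun x hx =>
    parseval V M' y hy (γ x) (fun r => by have := hM x hx r; omega) hM'0
  have hpar0 : ∑ a ∈ box d M', F a = (M' : ℝ) ^ d * ∑ v ∈ box d V, y v ^ 2 := by
    have h1 := parseval V M' y hy (fun _ => 0) (fun r => by omega) hM'0
    have h2 : ∀ v : Fin d → ℕ, v + (fun _ => 0) = v := fun v => by funext r; simp
    simp only [Nat.cast_zero, zero_div, mul_zero, Finset.sum_const_zero, Real.cos_zero, mul_one,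
      h2] at h1
    rw [hF]
    rw [h1]
    congr 1
    exact Finset.sum_congr rfl fun v _ => by ring
  have key : -ε * ∑ a ∈ box d M', F a ≤ ∑ x ∈ s, ν x * ∑ a ∈ box d M', F a *
      Real.cos (2 * Real.pi * ∑ r, ((a r : ℕ) : ℝ) * (((γ x r : ℕ) : ℝ) / M')) := by
    have h3 : ∑ x ∈ s, ν x * ∑ a ∈ box d M', F a *
        Real.cos (2 * Real.pi * ∑ r, ((a r : ℕ) : ℝ) * (((γ x r : ℕ) : ℝ) / M')) =
        ∑ a ∈ box d M', F a * ∑ x ∈ s, ν x *
          Real.cos (2 * Real.pi * ∑ r, (((a r : ℕ) : ℝ) / M') * (γ x r : ℝ)) := by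
      simp_rw [Finset.mul_sum]
      rw [Finset.sum_comm]
      apply Finset.sum_congr rfl
      intro a _
      apply Finset.sum_congr rfl
      intro x _
      have h4 : ∑ r, ((a r : ℕ) : ℝ) * (((γ x r : ℕ) : ℝ) / M') =
          ∑ r, (((a r : ℕ) : ℝ) / M') * (γ x r : ℝ) :=
        Finset.sum_congr rfl fun r _ => by ring
      rw [← Finset.mul_sum, ← Finset.mul_sum, h4]
      ring
    rw [h3, Finset.mul_sum]
    apply Finset.sum_le_sum
    intro a _
    have h5 := h (fun r => ((a r : ℕ) : ℝ) / M')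
    have h6 : 0 ≤ F a := by rw [hF]; positivity
    calc -ε * F a = F a * -ε := by ring
      _ ≤ _ := mul_le_mul_of_nonneg_left h5 h6
  have hk : ∑ x ∈ s, ν x * ∑ a ∈ box d M', F a *
      Real.cos (2 * Real.pi * ∑ r, ((a r : ℕ) : ℝ) * (((γ x r : ℕ) : ℝ) / M')) =
      ∑ x ∈ s, ν x * ((M' : ℝ) ^ d * ∑ v ∈ box d V, y v * y (v + γ x)) :=
    Finset.sum_congr rfl fun x hx => by rw [hpar x hx]
  rw [hpar0, hk] at key
  have h7 : ∑ x ∈ s, ν x * ((M' : ℝ) ^ d * ∑ v ∈ box d V, y v * y (v + γ x)) =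
      (M' : ℝ) ^ d * ∑ x ∈ s, ν x * ∑ v ∈ box d V, y v * y (v + γ x) := by
    rw [Finset.mul_sum]
    exact Finset.sum_congr rfl fun x _ => by ring
  rw [h7] at key
  have h8 : (M' : ℝ) ^ d * (-ε * ∑ v ∈ box d V, y v ^ 2) ≤
      (M' : ℝ) ^ d * ∑ x ∈ s, ν x * ∑ v ∈ box d V, y v * y (v + γ x) := by
    refine le_trans (le_of_eq ?_) key
    ring
  exact le_of_mul_le_mul_left h8 hMp

end Pool.Agent.V1161.VC
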