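import Pool.Agent.V1161.VC.L2
import Pool.Agent.V1161.VC.Set
import Pool.Agent.V11270.KC.Avg
import Pool.Agent.H357R2.SI.Energy

/-!
# Primes in windows at polynomial distances
-/

set_option autoImplicit false

namespace Pool.Agent.V1161.VC

open Filter Topology MeasureTheory
open Pool.Agent.V11270.KC (Nice)
open Pool.Agent.H357R2.SI (pc piS)

/-- the number of elements of `A` in `(t, t + h]` -/
noncomputable def wcnt (A : Finset ℕ) (h t : ℝ) : ℝ :=
  ((A.filter (fun p : ℕ => t < p ∧ (p : ℝ) ≤ t + h)).card : ℝ)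

lemma wcnt_eq (A : Finset ℕ) (h t : ℝ) : wcnt A h t =
    ∑ p ∈ A, (Set.Ico ((p : ℝ) - h) p).indicator (fun _ => (1 : ℝ)) t := by
  classical
  unfold wcnt
  rw [Finset.card_filter]
  push_cast
  refine Finset.sum_congr rfl fun p _ => ?_
  rw [Set.indicator_apply]
  refine if_congr ?_ rfl rfl
  rw [Set.mem_Ico]
  constructor
  · rintro ⟨h1, h2⟩
    exact ⟨by linarith, h1⟩
  · rintro ⟨h1, h2⟩
    exact ⟨h2, by linarith⟩

lemma nice_ico (a b : ℝ) : Nice ((Set.Ico a b).indicator fun _ => (1 : ℝ)) := by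
  refine ⟨measurable_const.indicator measurableSet_Ico, ⟨1, fun x => ?_⟩, a, b, fun x hx =>
    Set.indicator_of_notMem (fun hc => hx ⟨hc.1, hc.2.le⟩) _⟩
  by_cases hx : x ∈ Set.Ico a b
  · rw [Set.indicator_of_mem hx, abs_one]
  · rw [Set.indicator_of_notMem hx, abs_zero]
    exact zero_le_one

lemma nice_wcnt (A : Finset ℕ) (h : ℝ) : Nice (wcnt A h) := by
  have e : wcnt A h = fun t =>
      ∑ p ∈ A, (Set.Ico ((p : ℝ) - h) p).indicator (fun _ => (1 : ℝ)) t := funext fun t => wcnt_eq A h t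
  rw [e]
  exact Nice.sum A _ fun p _ => nice_ico _ _

lemma wcnt_nonneg (A : Finset ℕ) (h t : ℝ) : 0 ≤ wcnt A h t := Nat.cast_nonneg _

lemma int_ico {a b : ℝ} : ∫ t, (Set.Ico a b).indicator (fun _ => (1 : ℝ)) t = max 0 (b - a) := by
  rw [integral_indicator_const _ measurableSet_Ico, measureReal_def, Real.volume_Ico, smul_eq_mul,
    mul_one, ENNReal.toReal_ofReal', max_comm]

/-- the correlation of two intervals -/
lemma overlap (p q s h : ℝ) : ∫ t, (Set.Ico (p - h) p).indicator (fun _ => (1 : ℝ)) t *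
    (Set.Ico (q - h) q).indicator (fun _ => (1 : ℝ)) (t + s) = max 0 (h - |q - p - s|) := by
  classical
  have h1 : ∀ t, (Set.Ico (p - h) p).indicator (fun _ => (1 : ℝ)) t *
      (Set.Ico (q - h) q).indicator (fun _ => (1 : ℝ)) (t + s) =
      (Set.Ico (max (p - h) (q - s - h)) (min p (q - s))).indicator (fun _ => (1 : ℝ)) t := by
    intro t
    simp only [Set.indicator_apply, Set.mem_Ico, max_le_iff, lt_min_iff]
    by_cases h2 : p - h ≤ t ∧ t < p
    · by_cases h3 : q - h ≤ t + s ∧ t + s < q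
      · rw [if_pos h2, if_pos h3, if_pos, one_mul]
        exact ⟨⟨h2.1, by linarith [h3.1]⟩, h2.2, by linarith [h3.2]⟩
      · rw [if_pos h2, if_neg h3, if_neg, mul_zero]
        rintro ⟨⟨-, h5⟩, -, h7⟩
        exact h3 ⟨by linarith, by linarith⟩
    · rw [if_neg h2, zero_mul, if_neg]
      rintro ⟨⟨h4, -⟩, h6, -⟩
      exact h2 ⟨h4, h6⟩
  simp_rw [h1]
  rw [int_ico]
  congr 1
  rcases le_total p (q - s) with h2 | h2
  · rw [min_eq_left h2, max_eq_right (by linarith), abs_of_nonneg (by linarith)]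
    ring
  · rw [min_eq_right h2, max_eq_left (by linarith), abs_of_nonpos (by linarith)]
    ring

lemma int_wcnt (A : Finset ℕ) {h : ℝ} (hh : 0 ≤ h) : ∫ t, wcnt A h t = h * A.card := by
  simp_rw [wcnt_eq]
  rw [integral_finsetSum _ fun p _ => (nice_ico _ _).integrable]
  have : ∀ p ∈ A, ∫ t, (Set.Ico ((p : ℝ) - h) p).indicator (fun _ => (1 : ℝ)) t = h := by
    intro p _
    rw [int_ico, max_eq_right (by linarith)]
    ring
  rw [Finset.sum_congr rfl this, Finset.sum_const, nsmul_eq_mul, mul_comm]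

lemma corr_wcnt (A : Finset ℕ) (h s : ℝ) : ∫ t, wcnt A h t * wcnt A h (t + s) =
    ∑ p ∈ A, ∑ q ∈ A, max 0 (h - |(q : ℝ) - p - s|) := by
  have e : ∀ t, wcnt A h t * wcnt A h (t + s) = ∑ p ∈ A, ∑ q ∈ A,
      (Set.Ico ((p : ℝ) - h) p).indicator (fun _ => (1 : ℝ)) t *
        (Set.Ico ((q : ℝ) - h) q).indicator (fun _ => (1 : ℝ)) (t + s) := by
    intro t
    rw [wcnt_eq, wcnt_eq, Finset.sum_mul_sum]
  simp_rw [e]
  have hN : ∀ p q : ℕ, Nice fun t => (Set.Ico ((p : ℝ) - h) p).indicator (fun _ => (1 : ℝ)) t *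
      (Set.Ico ((q : ℝ) - h) q).indicator (fun _ => (1 : ℝ)) (t + s) := fun p q =>
    (nice_ico _ _).mul ((nice_ico _ _).comp s)
  rw [integral_finsetSum _ fun p _ => (Nice.sum A _ fun q _ => hN p q).integrable]
  refine Finset.sum_congr rfl fun p _ => ?_
  rw [integral_finsetSum _ fun q _ => (hN p q).integrable]
  exact Finset.sum_congr rfl fun q _ => overlap p q s h

lemma wcnt_supp {A : Finset ℕ} {X : ℕ} (hA : ∀ p ∈ A, X < p ∧ p ≤ 2 * X) {h : ℝ} (t : ℝ)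
    (ht : t ∉ Set.Icc ((X : ℝ) - h) (X - h + (X + h))) : wcnt A h t = 0 := by
  unfold wcnt
  rw [Nat.cast_eq_zero, Finset.card_eq_zero, Finset.filter_eq_empty_iff]
  rintro p hp ⟨h1, h2⟩
  obtain ⟨h3, h4⟩ := hA p hp
  have h3' : (X : ℝ) < p := by exact_mod_cast h3
  have h4' : (p : ℝ) ≤ 2 * X := by exact_mod_cast h4
  exact ht ⟨by linarith, by linarith⟩

/-- the second moment -/
lemma mom_wcnt {lam : ℝ} (hlam : 0 < lam) : ∃ (K : ℝ) (X₀ : ℕ), 1 ≤ K ∧ 3 ≤ X₀ ∧ ∀ X : ℕ, X₀ ≤ X →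
    ∀ h : ℝ, lam * Real.log X ≤ h → h ≤ X / 2 → ∀ A : Finset ℕ,
      (∀ p ∈ A, p.Prime ∧ X < p ∧ p ≤ 2 * X) →
      ∫ t, wcnt A h t ^ 2 ≤ K * (h ^ 2 * X / Real.log X ^ 2) := by
  classical
  obtain ⟨C, hC, N₀, hN₀, hmom⟩ := Pool.Agent.H357R2.SI.second_moment_scales
  have hlim : ∀ᶠ N : ℕ in atTop, 2 * Real.log N + 2 ≤ N / 2 := by
    have h := Real.isLittleO_log_id_atTop.bound (by norm_num : (0 : ℝ) < 1 / 8)
    have h2 := (tendsto_natCast_atTop_atTop (R := ℝ)).eventually h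
    filter_upwards [h2, eventually_ge_atTop 8] with N hN hN1
    have hN1' : (8 : ℝ) ≤ N := by exact_mod_cast hN1
    rw [Real.norm_of_nonneg (Real.log_nonneg (by linarith)), id, Real.norm_of_nonneg (by linarith)] at hN
    linarith
  obtain ⟨N₁, hN₁⟩ := hlim.exists_forall_of_atTop
  refine ⟨2 * C * (1 + 4 / lam) ^ 2 + 1, max (max N₀ N₁) 3, ?_, le_max_right _ _, ?_⟩
  · have : 0 ≤ 2 * C * (1 + 4 / lam) ^ 2 := by positivity
    linarith
  intro X hX h hh1 hh2 A hA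
  have hXN : N₀ ≤ X := (le_max_left _ _).trans ((le_max_left _ _).trans hX)
  have hX1 := hN₁ X ((le_max_right _ _).trans ((le_max_left _ _).trans hX))
  have hX3 : (3 : ℝ) ≤ X := by exact_mod_cast (le_max_right _ _).trans hX
  have hX0 : (0 : ℝ) < X := by linarith
  have hL1 : 1 ≤ Real.log X := by
    rw [Real.le_log_iff_exp_le hX0]
    linarith [Real.exp_one_lt_d9]
  have hL0 : 0 < Real.log X := by linarith
  have hh0 : 0 < h := lt_of_lt_of_le (by positivity) hh1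
  obtain ⟨N, hN⟩ : ∃ N : ℕ, N = 2 * X := ⟨_, rfl⟩
  have hNR : (N : ℝ) = 2 * X := by rw [hN]; push_cast; ring
  have hLN : Real.log X ≤ Real.log N := Real.log_le_log hX0 (by rw [hNR]; linarith)
  have hLN2 : Real.log N ≤ 2 * Real.log X := by
    rw [hNR]
    have h2 : Real.log (2 * X) ≤ Real.log ((X : ℝ) ^ 2) := Real.log_le_log (by positivity) (by nlinarith)
    rw [Real.log_pow] at h2
    exact_mod_cast h2
  obtain ⟨T, hT⟩ : ∃ T : ℕ, T = ⌈h + Real.log N + 1⌉₊ := ⟨_, rfl⟩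
  have hT1 : h + Real.log N + 1 ≤ T := by rw [hT]; exact Nat.le_ceil _
  have hT2 : (T : ℝ) ≤ h + Real.log N + 2 := by
    have := Nat.ceil_lt_add_one (show 0 ≤ h + Real.log N + 1 by linarith)
    rw [hT]; linarith
  have hTN : T ≤ N := by
    have : (T : ℝ) ≤ N := by
      rw [hNR]
      linarith
    exact_mod_cast this
  have hTh : (T : ℝ) ≤ (1 + 4 / lam) * h := by
    have h1 : Real.log X ≤ h / lam := by rw [le_div_iff₀ hlam]; linarith
    have h2 : (1 + 4 / lam) * h = h + 4 * (h / lam) := by ring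
    rw [h2]
    linarith
  have hm := hmom N T (by omega) (by linarith) hTN
  -- the pointwise bound
  have hpt : ∀ t, wcnt A h t ^ 2 ≤ ∑ n ∈ Finset.range N,
      ((pc n (n + T) : ℝ)) ^ 2 * (Set.Ico (n : ℝ) (n + 1)).indicator (fun _ => (1 : ℝ)) t := by
    intro t
    have hnn : 0 ≤ ∑ n ∈ Finset.range N,
      ((pc n (n + T) : ℝ)) ^ 2 * (Set.Ico (n : ℝ) (n + 1)).indicator (fun _ => (1 : ℝ)) t :=
      Finset.sum_nonneg fun n _ => mul_nonneg (sq_nonneg _)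
        (Set.indicator_nonneg (fun _ _ => zero_le_one) _)
    by_cases ht : t ∈ Set.Ico (0 : ℝ) N
    · have hfl : (⌊t⌋₊ : ℝ) ≤ t ∧ t < ⌊t⌋₊ + 1 := ⟨Nat.floor_le ht.1, Nat.lt_floor_add_one t⟩
      have hflN : ⌊t⌋₊ ∈ Finset.range N := by
        rw [Finset.mem_range, Nat.floor_lt ht.1]
        exact ht.2
      have h1 : ((pc ⌊t⌋₊ (⌊t⌋₊ + T) : ℝ)) ^ 2 *
          (Set.Ico (⌊t⌋₊ : ℝ) (⌊t⌋₊ + 1)).indicator (fun _ => (1 : ℝ)) t ≤ ∑ n ∈ Finset.range N,
          ((pc n (n + T) : ℝ)) ^ 2 * (Set.Ico (n : ℝ) (n + 1)).indicator (fun _ => (1 : ℝ)) t :=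
        Finset.single_le_sum (f := fun n : ℕ => ((pc n (n + T) : ℝ)) ^ 2 *
          (Set.Ico (n : ℝ) (n + 1)).indicator (fun _ => (1 : ℝ)) t)
          (fun n _ => mul_nonneg (sq_nonneg _) (Set.indicator_nonneg (fun _ _ => zero_le_one) _)) hflN
      refine le_trans ?_ h1
      rw [Set.indicator_of_mem (show t ∈ Set.Ico (⌊t⌋₊ : ℝ) (⌊t⌋₊ + 1) from hfl), mul_one]
      apply pow_le_pow_left₀ (wcnt_nonneg _ _ _)
      unfold wcnt pc
      apply Nat.cast_le.2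
      apply Finset.card_le_card
      intro p hp
      rw [Finset.mem_filter] at hp ⊢
      obtain ⟨hpA, hp1, hp2⟩ := hp
      refine ⟨?_, (hA p hpA).1⟩
      rw [Finset.mem_Ioc]
      constructor
      · have : (⌊t⌋₊ : ℝ) < p := by linarith [hfl.1]
        exact_mod_cast this
      · have : (p : ℝ) ≤ ⌊t⌋₊ + T := by linarith [hfl.2]
        exact_mod_cast this
    · have h0 : wcnt A h t = 0 := by
        unfold wcnt
        rw [Nat.cast_eq_zero, Finset.card_eq_zero, Finset.filter_eq_empty_iff]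
        rintro p hp ⟨h1, h2⟩
        obtain ⟨-, h3, h4⟩ := hA p hp
        have h3' : (X : ℝ) < p := by exact_mod_cast h3
        have h4' : (p : ℝ) ≤ 2 * X := by exact_mod_cast h4
        exact ht ⟨by linarith, by rw [hNR]; linarith⟩
      rw [h0]
      simpa using hnn
  have hI1 : Integrable fun t => wcnt A h t ^ 2 := ((nice_wcnt A h).pow (by norm_num)).integrable
  have hI2 : ∀ n : ℕ, Integrable fun t : ℝ =>
      ((pc n (n + T) : ℝ)) ^ 2 * (Set.Ico (n : ℝ) (n + 1)).indicator (fun _ => (1 : ℝ)) t := fun n =>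
    (nice_ico _ _).integrable.const_mul _
  refine (integral_mono hI1 (integrable_finsetSum _ fun n _ => hI2 n) hpt).trans ?_
  rw [integral_finsetSum _ fun n _ => hI2 n]
  have h5 : ∀ n ∈ Finset.range N, ∫ t : ℝ, ((pc n (n + T) : ℝ)) ^ 2 *
      (Set.Ico (n : ℝ) (n + 1)).indicator (fun _ => (1 : ℝ)) t = ((pc n (n + T) : ℝ)) ^ 2 := by
    intro n _
    rw [integral_const_mul, int_ico]
    have : max (0 : ℝ) ((n : ℝ) + 1 - n) = 1 := by
      rw [max_eq_right (by linarith)]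
      ring
    rw [this, mul_one]
  rw [Finset.sum_congr rfl h5]
  refine hm.trans ?_
  have hT0 : (0 : ℝ) ≤ T := Nat.cast_nonneg T
  have h6 : C * N * (T : ℝ) ^ 2 / Real.log N ^ 2 ≤
      C * (2 * X) * ((1 + 4 / lam) * h) ^ 2 / Real.log X ^ 2 := by
    rw [← hNR]
    apply div_le_div₀ (by positivity) _ (by positivity) (pow_le_pow_left₀ hL0.le hLN 2)
    apply mul_le_mul_of_nonneg_left (pow_le_pow_left₀ hT0 hTh 2)
    have : (0 : ℝ) ≤ N := Nat.cast_nonneg N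
    positivity
  refine h6.trans ?_
  have h7 : C * (2 * X) * ((1 + 4 / lam) * h) ^ 2 / Real.log X ^ 2 =
      2 * C * (1 + 4 / lam) ^ 2 * (h ^ 2 * X / Real.log X ^ 2) := by ring
  rw [h7]
  apply mul_le_mul_of_nonneg_right _ (by positivity)
  linarith

/-- **the correlation of dense sets of primes** -/
theorem corr_main (d : ℕ) {lam ε : ℝ} (hlam : 0 < lam) (hε : 0 < ε) : ∃ (M : ℕ) (θ : ℝ) (X₀ : ℕ),
    1 ≤ M ∧ 0 < θ ∧ θ ≤ 1 / 2 ∧ 3 ≤ X₀ ∧ ∀ X : ℕ, X₀ ≤ X → ∀ h : ℝ, lam * Real.log X ≤ h → h ≤ θ * X →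
      ∀ A : Finset ℕ, (∀ p ∈ A, p.Prime ∧ X < p ∧ p ≤ 2 * X) →
      ∀ β : Fin d → ℝ, (∀ r, |β r| ≤ θ * X) → ∃ m : ℕ, 1 ≤ m ∧ m ≤ M ∧
        h * (A.card : ℝ) ^ 2 / X - ε * (h * X / Real.log X ^ 2) ≤
          ∑ p ∈ A, ∑ q ∈ A,
            max 0 (1 - |(q : ℝ) - p - ∑ r, β r * (m : ℝ) ^ ((r : ℕ) + 1)| / h) := by
  classical
  obtain ⟨K, X₁, hK, hX₁, hmom⟩ := mom_wcnt hlam
  obtain ⟨X₂, hX₂, hpnt⟩ := Pool.Agent.H357R2.SI.pnt 1 one_pos
  obtain ⟨e, he⟩ : ∃ e : ℝ, e = min 1 (ε / (4 * (16 + K))) := ⟨_, rfl⟩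
  have hK0 : 0 < K := by linarith
  have he0 : 0 < e := by rw [he]; positivity
  have he1 : e ≤ 1 := by rw [he]; exact min_le_left _ _
  have heK : e * (16 + K) ≤ ε / 4 := by
    have h1 : e ≤ ε / (4 * (16 + K)) := by rw [he]; exact min_le_right _ _
    have h2 := mul_le_mul_of_nonneg_right h1 (show 0 ≤ 16 + K by positivity)
    refine h2.trans (le_of_eq ?_)
    field_simp
  obtain ⟨M, c, hM, hc, hrec⟩ := real_poly_L2 d he0 he1
  obtain ⟨θ, hθ⟩ : ∃ θ : ℝ, θ = min (min c (1 / 2)) (ε / 64) := ⟨_, rfl⟩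
  have hθ0 : 0 < θ := by rw [hθ]; positivity
  have hθc : θ ≤ c := by rw [hθ]; exact (min_le_left _ _).trans (min_le_left _ _)
  have hθ2 : θ ≤ 1 / 2 := by rw [hθ]; exact (min_le_left _ _).trans (min_le_right _ _)
  have hθε : θ ≤ ε / 64 := by rw [hθ]; exact min_le_right _ _
  refine ⟨M, θ, max X₁ X₂, hM, hθ0, hθ2, hX₁.trans (le_max_left _ _), ?_⟩
  intro X hX h hh1 hh2 A hA β hβ
  have hXX1 : X₁ ≤ X := (le_max_left _ _).trans hX
  have hXX2 : X₂ ≤ X := (le_max_right _ _).trans hX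
  have hX3 : (3 : ℝ) ≤ X := by exact_mod_cast hX₁.trans hXX1
  have hX0 : (0 : ℝ) < X := by linarith
  have hL1 : 1 ≤ Real.log X := by
    rw [Real.le_log_iff_exp_le hX0]
    linarith [Real.exp_one_lt_d9]
  have hL0 : 0 < Real.log X := by linarith
  have hh0 : 0 < h := lt_of_lt_of_le (by positivity) hh1
  have hhX : h ≤ X / 2 := by
    have := mul_le_mul_of_nonneg_right hθ2 hX0.le
    linarith
  have hm2 := hmom X hXX1 h hh1 hhX A hA
  -- the number of primes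
  have hcard : (A.card : ℝ) ≤ 4 * X / Real.log X := by
    have h1 : A.card ≤ Nat.primeCounting (2 * X) := by
      rw [← Pool.Agent.H357R2.SI.pc_zero]
      unfold pc
      apply Finset.card_le_card
      intro p hp
      obtain ⟨h2, h3, h4⟩ := hA p hp
      rw [Finset.mem_filter, Finset.mem_Ioc]
      exact ⟨⟨h2.pos, h4⟩, h2⟩
    have h2 : (A.card : ℝ) ≤ Nat.primeCounting (2 * X) := by exact_mod_cast h1
    refine h2.trans ((hpnt (2 * X) (by omega)).2.trans ?_)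
    push_cast
    apply div_le_div₀ (by positivity) (by linarith) hL0
    exact Real.log_le_log hX0 (by linarith)
  obtain ⟨m, hm1, hmM, hm⟩ := hrec ((X : ℝ) - h) (X + h) (by positivity) (wcnt A h)
    (nice_wcnt A h).meas (wcnt_nonneg A h) (by
      obtain ⟨B, hB⟩ := (nice_wcnt A h).bdd
      exact ⟨B, fun t => (le_abs_self _).trans (hB t)⟩)
    (wcnt_supp fun p hp => (hA p hp).2) β
    (fun r => (hβ r).trans ((mul_le_mul_of_nonneg_right hθc hX0.le).trans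
      (mul_le_mul_of_nonneg_left (by linarith) hc.le)))
  refine ⟨m, hm1, hmM, ?_⟩
  obtain ⟨s, hs⟩ : ∃ s : ℝ, s = ∑ r, β r * (m : ℝ) ^ ((r : ℕ) + 1) := ⟨_, rfl⟩
  rw [← hs] at hm ⊢
  rw [int_wcnt A hh0.le, corr_wcnt] at hm
  obtain ⟨J, hJ⟩ : ∃ J : ℝ, J = ∫ t, wcnt A h t ^ 2 := ⟨_, rfl⟩
  rw [← hJ] at hm hm2
  obtain ⟨n, hn⟩ : ∃ n : ℝ, n = (A.card : ℝ) := ⟨_, rfl⟩
  have hn0 : 0 ≤ n := by rw [hn]; exact Nat.cast_nonneg _
  rw [← hn] at hm hcard ⊢
  obtain ⟨S, hS⟩ : ∃ S : ℝ, S = ∑ p ∈ A, ∑ q ∈ A, max 0 (1 - |(q : ℝ) - p - s| / h) := ⟨_, rfl⟩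
  have hSh : ∑ p ∈ A, ∑ q ∈ A, max 0 (h - |(q : ℝ) - p - s|) = h * S := by
    rw [hS, Finset.mul_sum]
    refine Finset.sum_congr rfl fun p _ => ?_
    rw [Finset.mul_sum]
    refine Finset.sum_congr rfl fun q _ => ?_
    rw [mul_max_of_nonneg _ _ hh0.le, mul_zero]
    congr 1
    field_simp
  rw [hSh] at hm
  rw [← hS]
  -- the error terms
  obtain ⟨E, hE⟩ : ∃ E : ℝ, E = h ^ 2 * X / Real.log X ^ 2 := ⟨_, rfl⟩
  have hE0 : 0 < E := by rw [hE]; positivity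
  rw [← hE] at hm2
  have hnE : h ^ 2 * n ^ 2 / X ≤ 16 * E := by
    have h1 : n ^ 2 ≤ (4 * X / Real.log X) ^ 2 := pow_le_pow_left₀ hn0 hcard 2
    rw [hE, div_le_iff₀ hX0]
    have h2 := mul_le_mul_of_nonneg_left h1 (show 0 ≤ h ^ 2 by positivity)
    refine h2.trans (le_of_eq ?_)
    field_simp
    ring
  have h3 : h ^ 2 * n ^ 2 / X - θ * (16 * E) ≤ (h * n) ^ 2 / (X + h) := by
    have h4 : h ^ 2 * n ^ 2 / X - h / X * (h ^ 2 * n ^ 2 / X) ≤ (h * n) ^ 2 / (X + h) := by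
      rw [le_div_iff₀ (by positivity)]
      have h5 : (h ^ 2 * n ^ 2 / X - h / X * (h ^ 2 * n ^ 2 / X)) * (X + h) =
          h ^ 2 * n ^ 2 * (1 - (h / X) ^ 2) := by
        field_simp
        ring
      rw [h5, mul_pow]
      have : 0 ≤ h ^ 2 * n ^ 2 * (h / X) ^ 2 := by positivity
      linarith
    have h6 : h / X * (h ^ 2 * n ^ 2 / X) ≤ θ * (16 * E) := by
      apply mul_le_mul _ hnE (by positivity) hθ0.le
      rw [div_le_iff₀ hX0]
      exact hh2
    linarith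
  have h7 : (h * n) ^ 2 / (X + h) ≤ 16 * E := by
    refine le_trans ?_ hnE
    rw [mul_pow]
    exact div_le_div_of_nonneg_left (by positivity) hX0 (by linarith)
  have h8 : h ^ 2 * n ^ 2 / X - ε * E ≤ h * S := by
    refine le_trans ?_ hm
    have h9 : (1 - e) * ((h * n) ^ 2 / (X + h)) - e * J =
        (h * n) ^ 2 / (X + h) - e * ((h * n) ^ 2 / (X + h)) - e * J := by ring
    rw [h9]
    have h10 := mul_le_mul_of_nonneg_left h7 he0.le
    have h11 := mul_le_mul_of_nonneg_left hm2 he0.le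
    have h12 := mul_le_mul_of_nonneg_right heK hE0.le
    have h13 : θ * (16 * E) ≤ ε / 64 * (16 * E) := mul_le_mul_of_nonneg_right hθε (by positivity)
    nlinarith
  have h14 : h * (h * n ^ 2 / X - ε * (h * X / Real.log X ^ 2)) ≤ h * S := by
    refine le_trans (le_of_eq ?_) h8
    rw [hE]
    ring
  exact le_of_mul_le_mul_left h14 hh0

end Pool.Agent.V1161.VC
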