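import Pool.Agent.V1161.VC.Pos

/-!
# Polynomial recurrence with the optimal constant on the real line

For every `d` and `ε > 0` there are `N` and `c > 0` such that for every measurable `f : ℝ → [0, 1]` with mean `μ` on
`[a, a + H]` and all real `β_1, …, β_d` of absolute value at most `c H` there is `1 ≤ n ≤ N` such that the mean of
`f (t) f (t + β_1 n + … + β_d n^d)` on `[a, a + H]` is at least `μ² - ε`.
-/

set_option autoImplicit false

namespace Pool.Agent.V1161.VC

open Filter Topology Finset MeasureTheory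

/-- correlations of a function on a box -/
theorem box_corr {d : ℕ} {ι : Type*} (s : Finset ι) (ν : ι → ℝ) (γ : ι → Fin d → ℕ) {ε η : ℝ}
    (hε : 0 ≤ ε) (hν : ∀ x ∈ s, 0 ≤ ν x) (hν1 : ∑ x ∈ s, ν x = 1)
    (h : ∀ α : Fin d → ℝ, -ε ≤ ∑ x ∈ s, ν x * Real.cos (2 * Real.pi * ∑ r, α r * (γ x r : ℝ)))
    (V : ℕ) (hV : 0 < V)
    (hout : ∀ x ∈ s, ((((box d V).filter (fun v => v + γ x ∉ box d V)).card : ℕ) : ℝ) ≤ η * (V : ℝ) ^ d)
    (f : (Fin d → ℕ) → ℝ) (hf : ∀ v, 0 ≤ f v ∧ f v ≤ 1) :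
    (((∑ v ∈ box d V, f v) / (V : ℝ) ^ d) ^ 2 - ε - 3 * η) * (V : ℝ) ^ d ≤
      ∑ x ∈ s, ν x * ∑ v ∈ box d V, f v * f (v + γ x) := by
  classical
  have hVd : (0 : ℝ) < (V : ℝ) ^ d := by
    have : (0 : ℝ) < V := by exact_mod_cast hV
    positivity
  have hcard : ((box d V).card : ℝ) = (V : ℝ) ^ d := by
    simp [box]
  set m : ℝ := (∑ v ∈ box d V, f v) / (V : ℝ) ^ d with hm
  have hsum : ∑ v ∈ box d V, f v = m * (V : ℝ) ^ d := by rw [hm]; field_simp
  have hm0 : 0 ≤ m := div_nonneg (Finset.sum_nonneg fun v _ => (hf v).1) hVd.le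
  have hm1 : m ≤ 1 := by
    rw [hm, div_le_one hVd, ← hcard]
    calc ∑ v ∈ box d V, f v ≤ ∑ _v ∈ box d V, (1 : ℝ) := Finset.sum_le_sum fun v _ => (hf v).2
      _ = _ := by simp
  set y : (Fin d → ℕ) → ℝ := fun v => if v ∈ box d V then f v - m else 0 with hy
  have hyin : ∀ v ∈ box d V, y v = f v - m := fun v hv => by simp only [hy]; rw [if_pos hv]
  have hyout : ∀ v, v ∉ box d V → y v = 0 := fun v hv => by simp only [hy]; rw [if_neg hv]
  have hyabs : ∀ v, |y v| ≤ 1 := by
    intro v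
    by_cases hv : v ∈ box d V
    · rw [hyin v hv, abs_le]
      constructor <;> linarith [(hf v).1, (hf v).2]
    · rw [hyout v hv]; simp
  have hysum : ∑ v ∈ box d V, y v = 0 := by
    rw [Finset.sum_congr rfl hyin, Finset.sum_sub_distrib, hsum, Finset.sum_const, nsmul_eq_mul, hcard]
    ring
  have hpd := posdef s ν γ h V y hyout
  have hysq : ∑ v ∈ box d V, y v ^ 2 ≤ (V : ℝ) ^ d := by
    rw [← hcard]
    calc ∑ v ∈ box d V, y v ^ 2 ≤ ∑ _v ∈ box d V, (1 : ℝ) := Finset.sum_le_sum fun v _ => by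
          rw [← sq_abs]; exact pow_le_one₀ (abs_nonneg _) (hyabs v)
      _ = _ := by simp
  -- one shift
  have hone : ∀ x ∈ s, m ^ 2 * (V : ℝ) ^ d - 3 * (η * (V : ℝ) ^ d) + ∑ v ∈ box d V, y v * y (v + γ x) ≤
      ∑ v ∈ box d V, f v * f (v + γ x) := by
    intro x hx
    set A := (box d V).filter (fun v => v + γ x ∈ box d V) with hA
    set B := (box d V).filter (fun v => v + γ x ∉ box d V) with hB
    have hBle := hout x hx
    have hAB : (A.card : ℝ) + B.card = (V : ℝ) ^ d := by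
      rw [← hcard]
      have := Finset.card_filter_add_card_filter_not (s := box d V) (fun v => v + γ x ∈ box d V)
      exact_mod_cast this
    have h1 : ∑ v ∈ A, f v * f (v + γ x) ≤ ∑ v ∈ box d V, f v * f (v + γ x) :=
      Finset.sum_le_sum_of_subset_of_nonneg (Finset.filter_subset _ _)
        fun v _ _ => mul_nonneg (hf v).1 (hf _).1
    refine le_trans ?_ h1
    have h2 : ∑ v ∈ A, f v * f (v + γ x) = m ^ 2 * A.card + m * ∑ v ∈ A, y v +
        m * ∑ v ∈ A, y (v + γ x) + ∑ v ∈ A, y v * y (v + γ x) := by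
      rw [Finset.mul_sum, Finset.mul_sum, ← nsmul_eq_mul', ← Finset.sum_const, ← Finset.sum_add_distrib,
        ← Finset.sum_add_distrib, ← Finset.sum_add_distrib]
      apply Finset.sum_congr rfl
      intro v hv
      rw [hA, Finset.mem_filter] at hv
      rw [hyin v hv.1, hyin _ hv.2]
      ring
    have h3 : ∑ v ∈ A, y v * y (v + γ x) = ∑ v ∈ box d V, y v * y (v + γ x) := by
      apply Finset.sum_subset (Finset.filter_subset _ _)
      intro v hv hvA
      have : v + γ x ∉ box d V := fun h4 => hvA (Finset.mem_filter.2 ⟨hv, h4⟩)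
      rw [hyout _ this, mul_zero]
    have h4 : -(B.card : ℝ) ≤ ∑ v ∈ A, y v := by
      have h5 : ∑ v ∈ A, y v + ∑ v ∈ B, y v = 0 := by
        rw [hA, hB, Finset.sum_filter_add_sum_filter_not]
        exact hysum
      have h6 : ∑ v ∈ B, y v ≤ B.card := by
        calc ∑ v ∈ B, y v ≤ ∑ _v ∈ B, (1 : ℝ) :=
              Finset.sum_le_sum fun v _ => (abs_le.1 (hyabs v)).2
          _ = _ := by simp
      linarith
    have h7 : -(B.card : ℝ) ≤ ∑ v ∈ A, y (v + γ x) := by
      set A' := A.image (fun v => v + γ x) with hA'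
      have hinj : Function.Injective (fun v : Fin d → ℕ => v + γ x) := add_left_injective (γ x)
      have h8 : ∑ v ∈ A, y (v + γ x) = ∑ v ∈ A', y v := by
        rw [hA', Finset.sum_image (fun a _ b _ hab => hinj hab)]
      have h9 : A' ⊆ box d V := by
        intro v hv
        rw [hA', Finset.mem_image] at hv
        obtain ⟨u, hu, rfl⟩ := hv
        exact (Finset.mem_filter.1 hu).2
      have h10 : A'.card = A.card := Finset.card_image_of_injective _ hinj
      have h11 : ∑ v ∈ box d V \ A', y v + ∑ v ∈ A', y v = 0 := by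
        rw [Finset.sum_sdiff h9]; exact hysum
      have h12 : ∑ v ∈ box d V \ A', y v ≤ (box d V \ A').card := by
        calc ∑ v ∈ box d V \ A', y v ≤ ∑ _v ∈ box d V \ A', (1 : ℝ) :=
              Finset.sum_le_sum fun v _ => (abs_le.1 (hyabs v)).2
          _ = _ := by simp
      have h13 : (((box d V \ A').card : ℕ) : ℝ) = B.card := by
        have h14 : (box d V \ A').card + A'.card = (box d V).card := Finset.card_sdiff_add_card_eq_card h9
        have h15 : ((box d V \ A').card : ℝ) + A'.card = (V : ℝ) ^ d := by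
          rw [← hcard]; exact_mod_cast h14
        rw [h10] at h15
        linarith
      rw [h8]
      linarith
    rw [h2, h3]
    have hB0 : (0 : ℝ) ≤ B.card := Nat.cast_nonneg _
    have h16 : m * -(B.card : ℝ) ≤ m * ∑ v ∈ A, y v := mul_le_mul_of_nonneg_left h4 hm0
    have h17 : m * -(B.card : ℝ) ≤ m * ∑ v ∈ A, y (v + γ x) := mul_le_mul_of_nonneg_left h7 hm0
    have h18 : m * B.card ≤ 1 * B.card := mul_le_mul_of_nonneg_right hm1 hB0
    have h19 : m ^ 2 ≤ 1 := pow_le_one₀ hm0 hm1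
    have h20 : m ^ 2 * B.card ≤ 1 * B.card := mul_le_mul_of_nonneg_right h19 hB0
    have h21 : m ^ 2 * (A.card : ℝ) = m ^ 2 * (V : ℝ) ^ d - m ^ 2 * B.card := by
      rw [← hAB]; ring
    rw [h21]
    linarith
  have h22 : ∑ x ∈ s, ν x * (m ^ 2 * (V : ℝ) ^ d - 3 * (η * (V : ℝ) ^ d) +
      ∑ v ∈ box d V, y v * y (v + γ x)) ≤ ∑ x ∈ s, ν x * ∑ v ∈ box d V, f v * f (v + γ x) :=
    Finset.sum_le_sum fun x hx => mul_le_mul_of_nonneg_left (hone x hx) (hν x hx)
  refine le_trans ?_ h22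
  simp_rw [mul_add]
  rw [Finset.sum_add_distrib, ← Finset.sum_mul, hν1, one_mul]
  have h23 : -ε * (V : ℝ) ^ d ≤ -ε * ∑ v ∈ box d V, y v ^ 2 := by
    have := mul_le_mul_of_nonneg_left hysq hε
    linarith
  linarith

/-- the proportion of the points near the boundary of a large box is small -/
lemma out_small (d : ℕ) {η : ℝ} (hη : 0 < η) (G : ℕ) : ∃ V : ℕ, 0 < V ∧ ∀ γ : Fin d → ℕ, (∀ r, γ r ≤ G) →
    ((((box d V).filter (fun v => v + γ ∉ box d V)).card : ℕ) : ℝ) ≤ η * (V : ℝ) ^ d := by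
  classical
  have h1 : Tendsto (fun V : ℕ => (1 - (G : ℝ) / V) ^ d) atTop (𝓝 1) := by
    have h2 : Tendsto (fun V : ℕ => (G : ℝ) / V) atTop (𝓝 0) := tendsto_const_div_atTop_nhds_zero_nat _
    have h3 := (tendsto_const_nhds (x := (1 : ℝ))).sub h2
    rw [sub_zero] at h3
    simpa using h3.pow d
  have h4 : ∀ᶠ V : ℕ in atTop, 1 - η < (1 - (G : ℝ) / V) ^ d :=
    h1.eventually (lt_mem_nhds (by linarith))
  obtain ⟨V, hV1, hV2, hV3⟩ := (h4.and ((eventually_ge_atTop (G + 1)).and (eventually_ge_atTop 1))).exists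
  refine ⟨V, hV3, fun γ hγ => ?_⟩
  have hV0 : (0 : ℝ) < V := by exact_mod_cast hV3
  have hcard : ((box d V).card : ℝ) = (V : ℝ) ^ d := by simp [box]
  have hin : ((V : ℝ) - G) ^ d ≤ (((box d V).filter (fun v => v + γ ∈ box d V)).card : ℝ) := by
    have h5 : Fintype.piFinset (fun _ : Fin d => range (V - G)) ⊆
        (box d V).filter (fun v => v + γ ∈ box d V) := by
      intro v hv
      rw [Fintype.mem_piFinset] at hv
      rw [Finset.mem_filter, Fintype.mem_piFinset, Fintype.mem_piFinset]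
      constructor
      · intro r
        have := mem_range.1 (hv r)
        rw [mem_range]; omega
      · intro r
        have h6 := mem_range.1 (hv r)
        have h7 := hγ r
        rw [mem_range, Pi.add_apply]; omega
    have h8 := Finset.card_le_card h5
    rw [Fintype.card_piFinset] at h8
    simp only [card_range, prod_const, card_univ, Fintype.card_fin] at h8
    have h9 : ((V - G : ℕ) : ℝ) = (V : ℝ) - G := by
      rw [Nat.cast_sub (by omega)]
    rw [← h9]
    exact_mod_cast h8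
  have h10 := Finset.card_filter_add_card_filter_not (s := box d V) (fun v => v + γ ∈ box d V)
  have h11 : (((box d V).filter (fun v => v + γ ∈ box d V)).card : ℝ) +
      ((box d V).filter (fun v => v + γ ∉ box d V)).card = (V : ℝ) ^ d := by
    rw [← hcard]; exact_mod_cast h10
  have h12 : ((V : ℝ) - G) ^ d = (1 - (G : ℝ) / V) ^ d * (V : ℝ) ^ d := by
    rw [← mul_pow]; congr 1; field_simp
  have h13 : (1 - η) * (V : ℝ) ^ d ≤ (1 - (G : ℝ) / V) ^ d * (V : ℝ) ^ d :=
    mul_le_mul_of_nonneg_right hV1.le (by positivity)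
  linarith

lemma ii_bdd {f : ℝ → ℝ} (hf : Measurable f) (h1 : ∀ t, 0 ≤ f t ∧ f t ≤ 1) (a b : ℝ) :
    IntervalIntegrable f volume a b := by
  rw [intervalIntegrable_iff]
  apply Measure.integrableOn_of_bounded (M := 1)
  · exact measure_Ioc_lt_top.ne
  · exact hf.aestronglyMeasurable
  · filter_upwards with t
    rw [Real.norm_of_nonneg (h1 t).1]
    exact (h1 t).2

/-- polynomial recurrence with the optimal constant on the real line -/
theorem real_poly (d : ℕ) {ε : ℝ} (hε : 0 < ε) : ∃ (N : ℕ) (c : ℝ), 1 ≤ N ∧ 0 < c ∧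
    ∀ (a H : ℝ), 0 < H → ∀ f : ℝ → ℝ, Measurable f → (∀ t, 0 ≤ f t ∧ f t ≤ 1) →
      ∀ β : Fin d → ℝ, (∀ r, |β r| ≤ c * H) → ∃ n : ℕ, 1 ≤ n ∧ n ≤ N ∧
      (((∫ t in a..(a + H), f t) / H) ^ 2 - ε) * H ≤
        ∫ t in a..(a + H), f t * f (t + ∑ r, β r * (n : ℝ) ^ ((r : ℕ) + 1)) := by
  classical
  obtain ⟨J, Nf, Wf, hJ, hN1, hW1, hpv⟩ := pv d (ε := ε / 4) (by positivity)
  have hJ' : (0 : ℝ) < J := by exact_mod_cast hJ
  -- the finite measure
  set s : Finset (Σ _ : ℕ, ℕ) := (range J).sigma (fun j => range (Nf j)) with hs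
  set val : (Σ _ : ℕ, ℕ) → ℕ := fun x => Wf x.1 * (x.2 + 1) with hval
  set ν : (Σ _ : ℕ, ℕ) → ℝ := fun x => 1 / (J * Nf x.1) with hν
  set γ : (Σ _ : ℕ, ℕ) → Fin d → ℕ := fun x r => val x ^ ((r : ℕ) + 1) with hγ
  have hNp : ∀ j, (0 : ℝ) < Nf j := fun j => by exact_mod_cast hN1 j
  have hν0 : ∀ x ∈ s, 0 ≤ ν x := fun x _ => by
    have := hNp x.1
    simp only [hν]; positivity
  have hν1 : ∑ x ∈ s, ν x = 1 := by
    rw [hs, Finset.sum_sigma]
    simp only [hν]
    have : ∀ j ∈ range J, ∑ _l ∈ range (Nf j), (1 / (J * Nf j) : ℝ) = 1 / J := by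
      intro j _
      rw [Finset.sum_const, card_range, nsmul_eq_mul]
      have := hNp j
      field_simp
    rw [Finset.sum_congr rfl this, Finset.sum_const, card_range, nsmul_eq_mul]
    field_simp
  have hcos : ∀ α : Fin d → ℝ, -(ε / 4) ≤ ∑ x ∈ s, ν x *
      Real.cos (2 * Real.pi * ∑ r, α r * (γ x r : ℝ)) := by
    intro α
    have h1 := hpv (fun r => if h : r < d then α ⟨r, h⟩ else 0)
    have h2 : ∀ j l : ℕ, ∑ r ∈ range d, (if h : r < d then α ⟨r, h⟩ else 0) *
        ((Wf j : ℝ) * ((l : ℝ) + 1)) ^ (r + 1) = ∑ r : Fin d, α r * (γ ⟨j, l⟩ r : ℝ) := by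
      intro j l
      rw [Finset.sum_range]
      apply Finset.sum_congr rfl
      intro r _
      rw [dif_pos r.2]
      simp only [hγ, hval]
      push_cast
      rfl
    simp only [h2] at h1
    rw [hs, Finset.sum_sigma]
    have h3 : ∑ j ∈ range J, ∑ l ∈ range (Nf j), ν ⟨j, l⟩ *
        Real.cos (2 * Real.pi * ∑ r, α r * (γ ⟨j, l⟩ r : ℝ)) =
        (∑ j ∈ range J, (1 / (Nf j : ℝ)) * ∑ l ∈ range (Nf j),
          Real.cos (2 * Real.pi * ∑ r, α r * (γ ⟨j, l⟩ r : ℝ))) / J := by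
      rw [Finset.sum_div]
      apply Finset.sum_congr rfl
      intro j _
      rw [mul_div_right_comm, Finset.mul_sum]
      apply Finset.sum_congr rfl
      intro l _
      simp only [hν]
      congr 1
      have := hNp j
      field_simp
    rw [h3, le_div_iff₀ hJ']
    exact h1
  -- the bound for the values
  set N : ℕ := ∑ x ∈ s, val x with hNN
  have hvalN : ∀ x ∈ s, val x ≤ N := fun x hx =>
    single_le_sum (f := val) (fun _ _ => Nat.zero_le _) hx
  have hval1 : ∀ x, 1 ≤ val x := fun x => Nat.mul_pos (hW1 _) (Nat.succ_pos _)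
  have hsne : s.Nonempty := by
    by_contra h
    rw [Finset.not_nonempty_iff_eq_empty] at h
    rw [h, Finset.sum_empty] at hν1
    exact zero_ne_one hν1
  have hN : 1 ≤ N := by
    obtain ⟨x, hx⟩ := hsne
    exact (hval1 x).trans (hvalN x hx)
  obtain ⟨V, hV, hout⟩ := out_small d (η := ε / 24) (by positivity) (N ^ (d + 1))
  have hγN : ∀ x ∈ s, ∀ r, γ x r ≤ N ^ (d + 1) := by
    intro x hx r
    simp only [hγ]
    calc val x ^ ((r : ℕ) + 1) ≤ N ^ ((r : ℕ) + 1) := Nat.pow_le_pow_left (hvalN x hx) _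
      _ ≤ N ^ (d + 1) := Nat.pow_le_pow_right hN (by omega)
  have hV' : (0 : ℝ) < V := by exact_mod_cast hV
  have hVd : (0 : ℝ) < (V : ℝ) ^ d := by positivity
  set c : ℝ := ε / (16 * (d * V + 1)) with hc
  have hc0 : 0 < c := by positivity
  have hcV : d * V * c ≤ ε / 16 := by
    have h1 : (d * V + 1) * c = ε / 16 := by rw [hc]; field_simp
    nlinarith
  refine ⟨N, c, hN, hc0, fun a H hH f hfm hf β hβ => ?_⟩
  set μ : ℝ := (∫ t in a..(a + H), f t) / H with hμ
  have hμH : ∫ t in a..(a + H), f t = μ * H := by rw [hμ]; field_simp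
  have hab : a ≤ a + H := by linarith
  have hμ0 : 0 ≤ μ := div_nonneg (intervalIntegral.integral_nonneg hab fun t _ => (hf t).1) hH.le
  have hμ1 : μ ≤ 1 := by
    rw [hμ, div_le_one hH]
    calc ∫ t in a..(a + H), f t ≤ ∫ _t in a..(a + H), (1 : ℝ) :=
          intervalIntegral.integral_mono_on hab (ii_bdd hfm hf _ _) intervalIntegrable_const
            fun t _ => (hf t).2
      _ = H := by simp
  -- the base points
  set b₀ : ℝ := ε / 16 * H with hb₀
  set b : (Fin d → ℕ) → ℝ := fun v => b₀ + ∑ r, β r * (v r : ℝ) with hb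
  have hbv : ∀ v ∈ box d V, 0 ≤ b v ∧ b v ≤ 2 * b₀ := by
    intro v hv
    rw [Fintype.mem_piFinset] at hv
    have h1 : |∑ r, β r * (v r : ℝ)| ≤ b₀ := by
      calc |∑ r, β r * (v r : ℝ)| ≤ ∑ r, |β r * (v r : ℝ)| := Finset.abs_sum_le_sum_abs _ _
        _ ≤ ∑ _r : Fin d, (c * H) * V := by
            apply Finset.sum_le_sum
            intro r _
            rw [abs_mul, Nat.abs_cast]
            apply mul_le_mul (hβ r) _ (Nat.cast_nonneg _) (by positivity)
            exact_mod_cast (mem_range.1 (hv r)).le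
        _ = (d * V * c) * H := by
            rw [Finset.sum_const, card_univ, Fintype.card_fin, nsmul_eq_mul]; ring
        _ ≤ b₀ := by rw [hb₀]; exact mul_le_mul_of_nonneg_right hcV hH.le
    have h2 := abs_le.1 h1
    simp only [hb]
    constructor <;> linarith
  have hb0 : 0 ≤ b₀ := by rw [hb₀]; positivity
  set S : (Σ _ : ℕ, ℕ) → ℝ := fun x => ∑ r, β r * (val x : ℝ) ^ ((r : ℕ) + 1) with hS
  have hbγ : ∀ v x, b (v + γ x) = b v + S x := by
    intro v x
    simp only [hb, hS, hγ, Pi.add_apply]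
    push_cast
    rw [add_assoc, ← Finset.sum_add_distrib]
    congr 1
    exact Finset.sum_congr rfl fun r _ => by ring
  -- the pointwise inequality
  have hpt : ∀ t : ℝ, (2 * μ * ((∑ v ∈ box d V, f (t + b v)) / (V : ℝ) ^ d) - μ ^ 2 - 3 * ε / 8) *
      (V : ℝ) ^ d ≤ ∑ x ∈ s, ν x * ∑ v ∈ box d V, f (t + b v) * f (t + b v + S x) := by
    intro t
    have h1 := box_corr s ν γ (ε := ε / 4) (η := ε / 24) (by positivity) hν0 hν1 hcos V hV
      (fun x hx => hout (γ x) (hγN x hx)) (fun v => f (t + b v)) (fun v => hf _)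
    have h2 : ∀ x v, f (t + b (v + γ x)) = f (t + b v + S x) := fun x v => by
      rw [hbγ, ← add_assoc]
    simp only [h2] at h1
    refine le_trans (mul_le_mul_of_nonneg_right ?_ hVd.le) h1
    set m := (∑ v ∈ box d V, f (t + b v)) / (V : ℝ) ^ d
    nlinarith [sq_nonneg (m - μ)]
  -- measurability
  have hm1 : ∀ u : ℝ, Measurable fun t => f (t + u) := fun u => hfm.comp (measurable_add_const u)
  have hm2 : ∀ u w : ℝ, Measurable fun t => f (t + u) * f (t + u + w) := fun u w =>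
    (hm1 u).mul (hfm.comp ((measurable_add_const u).add_const w))
  have hb2 : ∀ u w t : ℝ, 0 ≤ f (t + u) * f (t + u + w) ∧ f (t + u) * f (t + u + w) ≤ 1 :=
    fun u w t => ⟨mul_nonneg (hf _).1 (hf _).1, mul_le_one₀ (hf _).2 (hf _).1 (hf _).2⟩
  have hi1 : ∀ u A B : ℝ, IntervalIntegrable (fun t => f (t + u)) volume A B := fun u A B =>
    ii_bdd (hm1 u) (fun t => hf _) A B
  have hi2 : ∀ u w A B : ℝ, IntervalIntegrable (fun t => f (t + u) * f (t + u + w)) volume A B :=
    fun u w A B => ii_bdd (hm2 u w) (hb2 u w) A B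
  have iisum : ∀ {κ : Type} (s' : Finset κ) (F : κ → ℝ → ℝ) (A B : ℝ),
      (∀ i ∈ s', IntervalIntegrable (F i) volume A B) →
      IntervalIntegrable (fun t => ∑ i ∈ s', F i t) volume A B := by
    intro κ s' F A B hF
    have h1 := IntervalIntegrable.sum s' hF
    have h2 : (∑ i ∈ s', F i) = fun t => ∑ i ∈ s', F i t := by funext t; simp
    rwa [h2] at h1
  set I : (Σ _ : ℕ, ℕ) → (Fin d → ℕ) → ℝ := fun x v =>
    ∫ t in a..(a + H), f (t + b v) * f (t + b v + S x) with hI
  -- integration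
  have hint : (μ ^ 2 - 5 * ε / 8) * H * (V : ℝ) ^ d ≤ ∑ x ∈ s, ν x * ∑ v ∈ box d V, I x v := by
    have h1 : ∫ t in a..(a + H), (2 * μ * ((∑ v ∈ box d V, f (t + b v)) / (V : ℝ) ^ d) - μ ^ 2 -
        3 * ε / 8) * (V : ℝ) ^ d ≤
        ∫ t in a..(a + H), ∑ x ∈ s, ν x * ∑ v ∈ box d V, f (t + b v) * f (t + b v + S x) := by
      apply intervalIntegral.integral_mono_on hab _ _ fun t _ => hpt t
      · apply IntervalIntegrable.mul_const
        apply IntervalIntegrable.sub _ intervalIntegrable_const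
        apply IntervalIntegrable.sub _ intervalIntegrable_const
        apply IntervalIntegrable.const_mul
        apply IntervalIntegrable.div_const
        exact iisum _ _ _ _ fun v _ => hi1 _ _ _
      · exact iisum _ _ _ _ fun x _ => (iisum _ _ _ _ fun v _ => hi2 _ _ _ _).const_mul _
    have h2 : ∫ t in a..(a + H), ∑ x ∈ s, ν x * ∑ v ∈ box d V, f (t + b v) * f (t + b v + S x) =
        ∑ x ∈ s, ν x * ∑ v ∈ box d V, I x v := by
      rw [intervalIntegral.integral_finsetSum
        (fun x _ => (iisum _ _ _ _ fun v _ => hi2 _ _ _ _).const_mul _)]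
      apply Finset.sum_congr rfl
      intro x _
      rw [intervalIntegral.integral_const_mul, intervalIntegral.integral_finsetSum
        (fun v _ => hi2 _ _ _ _)]
    rw [h2] at h1
    refine le_trans ?_ h1
    have h3 : ∫ t in a..(a + H), (2 * μ * ((∑ v ∈ box d V, f (t + b v)) / (V : ℝ) ^ d) - μ ^ 2 -
        3 * ε / 8) * (V : ℝ) ^ d =
        2 * μ * (∑ v ∈ box d V, ∫ t in a..(a + H), f (t + b v)) - (μ ^ 2 + 3 * ε / 8) * H * (V : ℝ) ^ d := by
      have h4 : ∀ t : ℝ, (2 * μ * ((∑ v ∈ box d V, f (t + b v)) / (V : ℝ) ^ d) - μ ^ 2 -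
        3 * ε / 8) * (V : ℝ) ^ d = 2 * μ * (∑ v ∈ box d V, f (t + b v)) -
          (μ ^ 2 + 3 * ε / 8) * (V : ℝ) ^ d := by
        intro t; field_simp; ring
      simp_rw [h4]
      rw [intervalIntegral.integral_sub ((iisum _ _ _ _ fun v _ => hi1 _ _ _).const_mul _)
        intervalIntegrable_const, intervalIntegral.integral_const_mul,
        intervalIntegral.integral_finsetSum (fun v _ => hi1 _ _ _), intervalIntegral.integral_const]
      simp only [smul_eq_mul]
      ring
    rw [h3]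
    have h5 : ∀ v ∈ box d V, (μ - ε / 8) * H ≤ ∫ t in a..(a + H), f (t + b v) := by
      intro v hv
      obtain ⟨hb1, hb2'⟩ := hbv v hv
      rw [intervalIntegral.integral_comp_add_right (fun t => f t) (b v)]
      have h6 : (∫ t in a..(a + b v), f t) + ∫ t in (a + b v)..(a + H + b v), f t =
          ∫ t in a..(a + H + b v), f t :=
        intervalIntegral.integral_add_adjacent_intervals (ii_bdd hfm hf _ _) (ii_bdd hfm hf _ _)
      have h7 : (∫ t in a..(a + H), f t) + ∫ t in (a + H)..(a + H + b v), f t =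
          ∫ t in a..(a + H + b v), f t :=
        intervalIntegral.integral_add_adjacent_intervals (ii_bdd hfm hf _ _) (ii_bdd hfm hf _ _)
      have h8 : ∫ t in a..(a + b v), f t ≤ b v := by
        calc ∫ t in a..(a + b v), f t ≤ ∫ _t in a..(a + b v), (1 : ℝ) :=
              intervalIntegral.integral_mono_on (by linarith) (ii_bdd hfm hf _ _)
                intervalIntegrable_const fun t _ => (hf t).2
          _ = b v := by simp
      have h9 : 0 ≤ ∫ t in (a + H)..(a + H + b v), f t :=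
        intervalIntegral.integral_nonneg (by linarith) fun t _ => (hf t).1
      rw [hμH] at h7
      have h10 : (μ - ε / 8) * H = μ * H - 2 * b₀ := by rw [hb₀]; ring
      rw [h10]; linarith
    have hcard : ((box d V).card : ℝ) = (V : ℝ) ^ d := by simp [box]
    have h11 : (V : ℝ) ^ d * ((μ - ε / 8) * H) ≤ ∑ v ∈ box d V, ∫ t in a..(a + H), f (t + b v) := by
      rw [← hcard, ← nsmul_eq_mul, ← Finset.sum_const]
      exact Finset.sum_le_sum h5
    have h12 := mul_le_mul_of_nonneg_left h11 (by positivity : (0 : ℝ) ≤ 2 * μ)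
    have h13 : 2 * μ * ((V : ℝ) ^ d * ((μ - ε / 8) * H)) - (μ ^ 2 + 3 * ε / 8) * H * (V : ℝ) ^ d =
        (μ ^ 2 - (ε / 4) * μ - 3 * ε / 8) * H * (V : ℝ) ^ d := by ring
    have h14 : (ε / 4) * μ ≤ ε / 4 := by
      have := mul_le_mul_of_nonneg_left hμ1 (by positivity : (0 : ℝ) ≤ ε / 4)
      linarith
    have h15 : (μ ^ 2 - 5 * ε / 8) * H * (V : ℝ) ^ d ≤
        (μ ^ 2 - (ε / 4) * μ - 3 * ε / 8) * H * (V : ℝ) ^ d := by
      apply mul_le_mul_of_nonneg_right _ hVd.le
      apply mul_le_mul_of_nonneg_right _ hH.le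
      linarith
    linarith
  -- the choice
  have hex : ∃ x ∈ s, ∃ v ∈ box d V, (μ ^ 2 - 5 * ε / 8) * H ≤ I x v := by
    by_contra hcon
    push Not at hcon
    have hcard : ((box d V).card : ℝ) = (V : ℝ) ^ d := by simp [box]
    have hbne : (box d V).Nonempty := by
      rw [← Finset.card_pos]
      have : (0 : ℝ) < ((box d V).card : ℝ) := by rw [hcard]; exact hVd
      exact_mod_cast this
    have h1 : ∀ x ∈ s, ∑ v ∈ box d V, I x v < (μ ^ 2 - 5 * ε / 8) * H * (V : ℝ) ^ d := by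
      intro x hx
      calc ∑ v ∈ box d V, I x v < ∑ _v ∈ box d V, (μ ^ 2 - 5 * ε / 8) * H :=
            Finset.sum_lt_sum_of_nonempty hbne fun v hv => hcon x hx v hv
        _ = _ := by rw [Finset.sum_const, nsmul_eq_mul, hcard]; ring
    have h2 : ∑ x ∈ s, ν x * ∑ v ∈ box d V, I x v <
        ∑ x ∈ s, ν x * ((μ ^ 2 - 5 * ε / 8) * H * (V : ℝ) ^ d) := by
      apply Finset.sum_lt_sum_of_nonempty hsne
      intro x hx
      apply mul_lt_mul_of_pos_left (h1 x hx)
      have := hNp x.1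
      simp only [hν]; positivity
    rw [← Finset.sum_mul, hν1, one_mul] at h2
    linarith
  obtain ⟨x, hx, v, hv, hIxv⟩ := hex
  refine ⟨val x, hval1 x, hvalN x hx, ?_⟩
  obtain ⟨hb1, hb2'⟩ := hbv v hv
  set φ : ℝ → ℝ := fun t => f t * f (t + S x) with hφ
  have hφb : ∀ t, 0 ≤ φ t ∧ φ t ≤ 1 := fun t =>
    ⟨mul_nonneg (hf _).1 (hf _).1, mul_le_one₀ (hf _).2 (hf _).1 (hf _).2⟩
  have hφm : Measurable φ := hfm.mul (hm1 (S x))
  have h1 : I x v = ∫ t in (a + b v)..(a + H + b v), φ t := by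
    simp only [hI]
    rw [← intervalIntegral.integral_comp_add_right (fun t => φ t) (b v)]
  have h2 : (∫ t in a..(a + b v), φ t) + ∫ t in (a + b v)..(a + H + b v), φ t =
      ∫ t in a..(a + H + b v), φ t :=
    intervalIntegral.integral_add_adjacent_intervals (ii_bdd hφm hφb _ _) (ii_bdd hφm hφb _ _)
  have h3 : (∫ t in a..(a + H), φ t) + ∫ t in (a + H)..(a + H + b v), φ t =
      ∫ t in a..(a + H + b v), φ t :=
    intervalIntegral.integral_add_adjacent_intervals (ii_bdd hφm hφb _ _) (ii_bdd hφm hφb _ _)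
  have h4 : ∫ t in (a + H)..(a + H + b v), φ t ≤ b v := by
    calc ∫ t in (a + H)..(a + H + b v), φ t ≤ ∫ _t in (a + H)..(a + H + b v), (1 : ℝ) :=
          intervalIntegral.integral_mono_on (by linarith) (ii_bdd hφm hφb _ _)
            intervalIntegrable_const fun t _ => (hφb t).2
      _ = b v := by simp
  have h5 : 0 ≤ ∫ t in a..(a + b v), φ t :=
    intervalIntegral.integral_nonneg (by linarith) fun t _ => (hφb t).1
  have h6 : (μ ^ 2 - ε) * H ≤ (μ ^ 2 - 5 * ε / 8) * H - 2 * b₀ := by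
    rw [hb₀]
    have : (μ ^ 2 - 5 * ε / 8) * H - 2 * (ε / 16 * H) = (μ ^ 2 - 3 * ε / 4) * H := by ring
    rw [this]
    apply mul_le_mul_of_nonneg_right _ hH.le
    linarith
  have h7 : ∫ t in a..(a + H), f t * f (t + ∑ r, β r * ((val x : ℕ) : ℝ) ^ ((r : ℕ) + 1)) =
      ∫ t in a..(a + H), φ t := rfl
  rw [h7]
  linarith

end Pool.Agent.V1161.VC
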